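import Pool.Agent.J6H6.DF.Stm

set_option autoImplicit false

/-!
# Indecomposable vectors of bounded norm which are not orthogonal to a given vector
-/

namespace Pool.Agent.J6H6.DF

open Filter

variable {V : Type} [AddCommGroup V] {B : V →+ V →+ ℤ}

theorem Pos.nonneg (hB : Pos B) (x : V) : 0 ≤ B x x := by
  by_cases h : x = 0
  · rw [h, map_zero]
  · exact (hB.pos x h).le

theorem Pos.cs (hB : Pos B) (x y : V) : (B x y) ^ 2 ≤ B x x * B y y := by
  by_cases hx : x = 0
  · rw [hx, map_zero]; simp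
  · have h := hB.pos x hx
    have h2 := hB.nonneg (B x x • y - B x y • x)
    have h3 : B (B x x • y - B x y • x) (B x x • y - B x y • x) =
        B x x * (B x x * B y y - (B x y) ^ 2) := by
      simp only [map_sub, map_zsmul, AddMonoidHom.sub_apply, AddMonoidHom.smul_apply, smul_eq_mul]
      rw [hB.symm y x]
      ring
    rw [h3] at h2
    have h4 := nonneg_of_mul_nonneg_right h2 h
    linarith

/-- Bessel's inequality. -/
theorem Pos.bessel (hB : Pos B) {I : Type} (b : I → V) {K : ℤ} (hK : 0 ≤ K)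
    (row : ∀ s (F : Finset I), ∑ t ∈ F, |B (b s) (b t)| ≤ K) (x : V) (F : Finset I) :
    ∑ s ∈ F, (B (b s) x) ^ 2 ≤ K * B x x := by
  set c : I → ℤ := fun s => B (b s) x with hc
  set S := ∑ s ∈ F, (c s) ^ 2 with hS
  set z := ∑ s ∈ F, c s • b s with hz
  have h0 : ∀ y, B z y = ∑ s ∈ F, c s * B (b s) y := by
    intro y
    rw [hz, map_sum, AddMonoidHom.finsetSum_apply]
    refine Finset.sum_congr rfl fun s _ => ?_
    rw [map_zsmul, AddMonoidHom.smul_apply, smul_eq_mul]
  have h1 : B z x = S := by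
    rw [h0]
    refine Finset.sum_congr rfl fun s _ => ?_
    rw [sq]
  have h2 : B z z = ∑ s ∈ F, ∑ t ∈ F, c s * c t * B (b s) (b t) := by
    rw [h0]
    refine Finset.sum_congr rfl fun s _ => ?_
    rw [hz, map_sum, Finset.mul_sum]
    refine Finset.sum_congr rfl fun t _ => ?_
    rw [map_zsmul, smul_eq_mul, mul_assoc]
  have h3 : 2 * B z z ≤ 2 * (K * S) := by
    have e1 : ∑ s ∈ F, ∑ t ∈ F, (c s) ^ 2 * |B (b s) (b t)| ≤ K * S := by
      rw [hS, Finset.mul_sum]
      refine Finset.sum_le_sum fun s _ => ?_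
      rw [← Finset.mul_sum, mul_comm]
      exact mul_le_mul_of_nonneg_right (row s F) (sq_nonneg _)
    have e2 : ∑ s ∈ F, ∑ t ∈ F, (c t) ^ 2 * |B (b s) (b t)| ≤ K * S := by
      rw [Finset.sum_comm]
      refine le_trans (le_of_eq ?_) e1
      refine Finset.sum_congr rfl fun s _ => Finset.sum_congr rfl fun t _ => ?_
      rw [hB.symm]
    have e3 : 2 * B z z ≤ ∑ s ∈ F, ∑ t ∈ F, (c s) ^ 2 * |B (b s) (b t)| +
        ∑ s ∈ F, ∑ t ∈ F, (c t) ^ 2 * |B (b s) (b t)| := by
      rw [h2, Finset.mul_sum, ← Finset.sum_add_distrib]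
      refine Finset.sum_le_sum fun s _ => ?_
      rw [Finset.mul_sum, ← Finset.sum_add_distrib]
      refine Finset.sum_le_sum fun t _ => ?_
      have h5 : 2 * |c s * c t| ≤ (c s) ^ 2 + (c t) ^ 2 := by
        rw [abs_mul]
        have h6 := sq_nonneg (|c s| - |c t|)
        have h7 := sq_abs (c s)
        have h8 := sq_abs (c t)
        nlinarith
      have h6 : c s * c t * B (b s) (b t) ≤ |c s * c t| * |B (b s) (b t)| := by
        rw [← abs_mul]
        exact le_abs_self _
      have h7 := abs_nonneg (B (b s) (b t))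
      nlinarith
    linarith
  have h4 := hB.cs z x
  rw [h1] at h4
  have h5 := hB.nonneg x
  have hS0 : 0 ≤ S := Finset.sum_nonneg fun s _ => sq_nonneg _
  rcases hS0.lt_or_eq with h6 | h6
  · have h7 : S * S ≤ S * (K * B x x) := by
      calc S * S = S ^ 2 := (sq S).symm
        _ ≤ B z z * B x x := h4
        _ ≤ (K * S) * B x x := mul_le_mul_of_nonneg_right (by linarith) h5
        _ = S * (K * B x x) := by ring
    exact le_of_mul_le_mul_left h7 h6
  · rw [← h6]
    exact mul_nonneg hK h5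

/-- Eichler, Kneser: in a lattice with bounded rows of the Gram matrix in which all finitely supported
functionals are represented, only finitely many indecomposable vectors of bounded norm are not
orthogonal to a given vector. -/
theorem finite_nb (hB : Pos B) {I : Type} (b : I → V)
    (span : AddSubgroup.closure (Set.range b) = ⊤) {K : ℤ}
    (row : ∀ s (F : Finset I), ∑ t ∈ F, |B (b s) (b t)| ≤ K)
    (rep : ∀ f : I → ℤ, {s | f s ≠ 0}.Finite → ∃ y, ∀ s, B (b s) y = f s) (a : V) (N : ℤ) :
    {x | Indec B x ∧ B x x ≤ N ∧ B a x ≠ 0}.Finite := by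
  by_contra hinf
  set T : Set V := {x | Indec B x ∧ B x x ≤ N ∧ B a x ≠ 0} with hT
  have hinf' : Infinite T := Set.infinite_coe_iff.mpr hinf
  let U : Ultrafilter T := hyperfilter T
  have hN : 0 ≤ N := by
    obtain ⟨x, hx⟩ := (Set.infinite_coe_iff.mp hinf').nonempty
    exact (hB.nonneg x).trans hx.2.1
  set K' := max K 0 with hK'
  have row' : ∀ s (F : Finset I), ∑ t ∈ F, |B (b s) (b t)| ≤ K' := fun s F =>
    (row s F).trans (le_max_left _ _)
  -- limits of the functionals
  have lim : ∀ x, ∃ c : ℤ, ∀ᶠ t : T in (U : Filter T), B x t.1 = c := by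
    intro x
    have hb : ∀ t : T, B x t.1 ∈ Set.Icc (-(B x x * N + 1)) (B x x * N + 1) := by
      intro t
      have h1 := hB.cs x t.1
      have h2 : B x x * B t.1 t.1 ≤ B x x * N :=
        mul_le_mul_of_nonneg_left t.2.2.1 (hB.nonneg x)
      have h3 : (B x t.1) ^ 2 ≤ B x x * N := h1.trans h2
      constructor
      · nlinarith
      · nlinarith
    have hfin : (Set.Icc (-(B x x * N + 1)) (B x x * N + 1)).Finite := Set.finite_Icc _ _
    have h1 : ∀ᶠ t : T in (U : Filter T), ∃ c ∈ Set.Icc (-(B x x * N + 1)) (B x x * N + 1),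
        B x t.1 = c := Eventually.of_forall fun t => ⟨_, hb t, rfl⟩
    have h2 := (Ultrafilter.eventually_exists_mem_iff hfin).mp h1
    obtain ⟨c, -, hc⟩ := h2
    exact ⟨c, hc⟩
  choose φ hφ using lim
  have uniq : ∀ x c, (∀ᶠ t : T in (U : Filter T), B x t.1 = c) → φ x = c := by
    intro x c hc
    obtain ⟨t, h1, h2⟩ := ((hφ x).and hc).exists
    exact h1.symm.trans h2
  have φadd : ∀ x y, φ (x + y) = φ x + φ y := by
    intro x y
    refine uniq _ _ ?_
    filter_upwards [hφ x, hφ y] with t h1 h2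
    rw [map_add, AddMonoidHom.add_apply, h1, h2]
  have φfin : {s | φ (b s) ≠ 0}.Finite := by
    by_contra hcon
    have hcon' : {s | φ (b s) ≠ 0}.Infinite := hcon
    obtain ⟨F, hF, hcard⟩ := hcon'.exists_subset_card_eq ((K' * N).toNat + 1)
    have h1 : ∀ᶠ t : T in (U : Filter T), ∀ s ∈ F, B (b s) t.1 = φ (b s) := by
      rw [eventually_all_finset]
      exact fun s _ => hφ (b s)
    obtain ⟨t, ht⟩ := h1.exists
    have h2 := hB.bessel b (le_max_right K 0) row' t.1 F
    have h3 : (F.card : ℤ) ≤ ∑ s ∈ F, (B (b s) t.1) ^ 2 := by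
      have : ∑ s ∈ F, (1 : ℤ) ≤ ∑ s ∈ F, (B (b s) t.1) ^ 2 := by
        refine Finset.sum_le_sum fun s hs => ?_
        have h4 : B (b s) t.1 ≠ 0 := by
          rw [ht s hs]
          exact hF hs
        have h5 : 0 < (B (b s) t.1) ^ 2 := by positivity
        linarith
      simpa using this
    have h4 : K' * B t.1 t.1 ≤ K' * N :=
      mul_le_mul_of_nonneg_left t.2.2.1 (le_max_right K 0)
    rw [hcard] at h3
    have h5 := Int.self_le_toNat (K' * N)
    push_cast at h3
    linarith
  obtain ⟨e, he⟩ := rep (fun s => φ (b s)) φfin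
  have hall : ∀ x, B x e = φ x := by
    let Φ : V →+ ℤ := AddMonoidHom.mk' φ φadd
    have h1 : (B.flip e) = Φ := by
      refine AddMonoidHom.eq_of_eqOn_dense span ?_
      rintro _ ⟨s, rfl⟩
      exact he s
    intro x
    exact DFunLike.congr_fun h1 x
  have ha : B a e ≠ 0 := by
    rw [hall]
    obtain ⟨t, ht⟩ := (hφ a).exists
    rw [← ht]
    exact t.2.2.2
  have he0 : e ≠ 0 := by
    rintro rfl
    exact ha (map_zero _)
  have hev : ∀ᶠ t : T in (U : Filter T), t.1 = e := by
    filter_upwards [hφ e] with t ht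
    rw [← hall e] at ht
    rcases t.2.1.2 e (t.1 - e) (by abel) (by rw [map_sub, ht, sub_self]) with h | h
    · exact absurd h he0
    · exact sub_eq_zero.mp h
  have hne : ∀ᶠ t : T in (U : Filter T), t.1 ≠ e := by
    have h1 : ({t : T | t.1 = e} : Set T).Finite := by
      refine Set.Subsingleton.finite fun t ht t' ht' => Subtype.ext ?_
      exact (show t.1 = e from ht).trans (show t'.1 = e from ht').symm
    exact compl_mem_hyperfilter_of_finite h1
  obtain ⟨t, h1, h2⟩ := (hev.and hne).exists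
  exact h2 h1

end Pool.Agent.J6H6.DF
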