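import Mathlib

set_option autoImplicit false

/-! The involution `g ↦ g⁻¹` of an integral group ring. -/

namespace Pool.Agent.J6H6.DF

variable {G : Type} [Group G]

/-- The involution `∑ a_g g ↦ ∑ a_g g⁻¹` of `ℤG`. -/
noncomputable def bar (x : MonoidAlgebra ℤ G) : MonoidAlgebra ℤ G :=
  ∑ g ∈ x.coeff.support, MonoidAlgebra.single g⁻¹ (x.coeff g)

theorem coeff_bar (x : MonoidAlgebra ℤ G) (g : G) : (bar x).coeff g = x.coeff g⁻¹ := by
  classical
  unfold bar
  rw [MonoidAlgebra.coeff_sum, Finsupp.finsetSum_apply]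
  have h1 : ∀ h ∈ x.coeff.support, (MonoidAlgebra.single h⁻¹ (x.coeff h)).coeff g
      = if h = g⁻¹ then x.coeff g⁻¹ else 0 := by
    intro h _
    rw [MonoidAlgebra.coeff_single, Finsupp.single_apply]
    by_cases hh : h = g⁻¹
    · subst hh
      rw [if_pos (inv_inv g), if_pos rfl]
    · rw [if_neg hh, if_neg (fun h2 => hh (by rw [← h2, inv_inv]))]
  rw [Finset.sum_congr rfl h1, Finset.sum_ite_eq']
  split_ifs with h
  · rfl
  · rw [Finsupp.notMem_support_iff.1 h]

theorem bar_single (g : G) (r : ℤ) :
    bar (MonoidAlgebra.single g r) = MonoidAlgebra.single g⁻¹ r := by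
  classical
  ext h
  rw [coeff_bar, MonoidAlgebra.coeff_single, MonoidAlgebra.coeff_single, Finsupp.single_apply,
    Finsupp.single_apply]
  by_cases hh : g = h⁻¹
  · subst hh
    rw [if_pos rfl, inv_inv, if_pos rfl]
  · rw [if_neg hh, if_neg (fun h2 => hh (by rw [← h2, inv_inv]))]

theorem bar_zero : bar (0 : MonoidAlgebra ℤ G) = 0 := by
  ext g; rw [coeff_bar]; simp

theorem bar_add (x y : MonoidAlgebra ℤ G) : bar (x + y) = bar x + bar y := by
  ext g
  rw [MonoidAlgebra.coeff_add, Finsupp.add_apply, coeff_bar, coeff_bar, coeff_bar,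
    MonoidAlgebra.coeff_add, Finsupp.add_apply]

theorem bar_bar (x : MonoidAlgebra ℤ G) : bar (bar x) = x := by
  ext g
  rw [coeff_bar, coeff_bar, inv_inv]

theorem bar_sum {ι : Type*} (s : Finset ι) (f : ι → MonoidAlgebra ℤ G) :
    bar (∑ i ∈ s, f i) = ∑ i ∈ s, bar (f i) := by
  classical
  induction s using Finset.induction_on with
  | empty => simp [bar_zero]
  | insert i s hi ih => rw [Finset.sum_insert hi, Finset.sum_insert hi, bar_add, ih]

theorem bar_mul (x y : MonoidAlgebra ℤ G) : bar (x * y) = bar y * bar x := by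
  induction x using MonoidAlgebra.induction_linear with
  | zero => rw [zero_mul, bar_zero, mul_zero]
  | add x1 x2 h1 h2 => rw [add_mul, bar_add, h1, h2, bar_add, mul_add]
  | single g r =>
    induction y using MonoidAlgebra.induction_linear with
    | zero => rw [mul_zero, bar_zero, zero_mul]
    | add y1 y2 h1 h2 => rw [mul_add, bar_add, h1, h2, bar_add, add_mul]
    | single h s =>
      rw [MonoidAlgebra.single_mul_single, bar_single, bar_single, bar_single,
        MonoidAlgebra.single_mul_single, mul_inv_rev, mul_comm]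

end Pool.Agent.J6H6.DF
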