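import Mathlib
import Pool.Agent.J6H6.DF.Bar

set_option autoImplicit false

/-!
# Project DF (helper6): definite hermitian forms over group rings, statements

Target `MP_c13a79_gt` (surgery obstruction groups of Poincare duality groups). `G` is a torsion-free
group, `R = ℤG` with the involution `g ↦ g⁻¹`, `A` a hermitian invertible `n × n` matrix over `R`, with
`⟨x, x⟩ > 0` for `x ≠ 0`, where `⟨x, y⟩ ∈ ℤ` is the coefficient of `1` of `x A y*`.

Theorem. If the group `R ^ n` is generated by the `x` with `⟨x, x⟩ ≤ 2` then the form is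
isometric to a form with integer coefficients.

The modules below are independent of each other.
-/

namespace Pool.Agent.J6H6.DF



/-- A positive definite symmetric form on an abelian group. -/
structure Pos {V : Type} [AddCommGroup V] (B : V →+ V →+ ℤ) : Prop where
  symm : ∀ x y, B x y = B y x
  pos : ∀ x, x ≠ 0 → 0 < B x x

/-- `x` is not the sum of two orthogonal nonzero vectors. -/
def Indec {V : Type} [AddCommGroup V] (B : V →+ V →+ ℤ) (x : V) : Prop :=
  x ≠ 0 ∧ ∀ y z, y + z = x → B y z = 0 → y = 0 ∨ z = 0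

/-- The indecomposable vectors of norm at most `2`. -/
def Short {V : Type} [AddCommGroup V] (B : V →+ V →+ ℤ) : Set V := {x | Indec B x ∧ B x x ≤ 2}

/-- The component of `a`: the short vectors which can be reached from `a` through short vectors which
are not orthogonal. -/
def Comp {V : Type} [AddCommGroup V] (B : V →+ V →+ ℤ) (a : V) : Set V :=
  {x | Relation.ReflTransGen (fun y z => z ∈ Short B ∧ B y z ≠ 0) a x}

/-- DF-6. Components are finite. Proof: let `D = {x ∈ Short B | ∃ c ∈ Short B, B a c ≠ 0 ∧ B c x ≠ 0}`; it is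
finite by the hypothesis (used twice) and contains `a` (take `c = a`). `D` is closed under neighbours:
let `x ∈ D` with `c`, and `y ∈ Short B`, `B x y ≠ 0`. If `B c y ≠ 0` then `y ∈ D` with `c`; if
`B a x ≠ 0` then `y ∈ D` with `x`. Otherwise `B x x ∈ {1, 2}`. If `B x x = 1` then
`c = (B c x) x + (c - (B c x) x)` is an orthogonal decomposition, so `c = (B c x) x` by `Indec`, and
`B c y ≠ 0`, a contradiction. If `B x x = 2` let `d = c - (B c x) x` (reflection of `c` at `x`, an
involution which preserves `B`, so `d ∈ Short B`); `B a d = B a c ≠ 0` and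
`B d y = - (B c x) (B x y) ≠ 0`, so `y ∈ D` with `d`. -/
def S_COMP : Prop :=
  ∀ (V : Type) [AddCommGroup V] (B : V →+ V →+ ℤ), Pos B →
    (∀ a, {x | x ∈ Short B ∧ B a x ≠ 0}.Finite) → ∀ a ∈ Short B, (Comp B a).Finite

section concrete

variable {G : Type} [Group G] {n : ℕ}

/-- `x A y*`, where `x, y` are row vectors. -/
noncomputable def herm (A : Matrix (Fin n) (Fin n) (MonoidAlgebra ℤ G))
    (x y : Fin n → MonoidAlgebra ℤ G) : MonoidAlgebra ℤ G :=
  ∑ i, ∑ j, x i * A i j * bar (y j)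

/-- The translate `g x`. -/
noncomputable def tr (g : G) (x : Fin n → MonoidAlgebra ℤ G) : Fin n → MonoidAlgebra ℤ G :=
  fun i => MonoidAlgebra.single g 1 * x i

/-- The basis of the abelian group `R ^ n`. -/
noncomputable def bas (s : G × Fin n) : Fin n → MonoidAlgebra ℤ G :=
  Pi.single s.2 (MonoidAlgebra.single s.1 1)

/-- DF-1. The form `⟨x, y⟩`: the coefficient of `1` of `x A y*`. -/
def S_FORM : Prop :=
  ∀ (G : Type) [Group G] (n : ℕ) (A : Matrix (Fin n) (Fin n) (MonoidAlgebra ℤ G)),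
    (∀ i j, bar (A i j) = A j i) →
    ∃ B : (Fin n → MonoidAlgebra ℤ G) →+ (Fin n → MonoidAlgebra ℤ G) →+ ℤ,
      (∀ x y, B x y = (herm A x y).coeff 1) ∧ (∀ x y, B x y = B y x) ∧
      (∀ g x y, B (tr g x) (tr g y) = B x y) ∧
      (∀ (g : G) x y, B x (tr g y) = (herm A x y).coeff g) ∧
      ∀ (s t : G × Fin n), B (bas s) (bas t) = (A s.2 t.2).coeff (s.1⁻¹ * t.1)

/-- DF-2. Bounded rows of the Gram matrix; `K` is the sum of the absolute values of all
coefficients of `A`; for fixed `s = (g, i)` the map `t = (h, j) ↦ (g⁻¹ h, j)` is injective. -/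
def S_ROW : Prop :=
  ∀ (G : Type) [Group G] (n : ℕ) (A : Matrix (Fin n) (Fin n) (MonoidAlgebra ℤ G)),
    ∃ K : ℤ, ∀ (s : G × Fin n) (F : Finset (G × Fin n)),
      ∑ t ∈ F, |(A s.2 t.2).coeff (s.1⁻¹ * t.1)| ≤ K

/-- DF-3. If `A` is invertible then every finitely supported function on the basis is represented by a
vector: `y = (A⁻¹ c)*` with `c j = ∑ g, f (g, j) g⁻¹`. (Here `(herm A (bas (g, j)) y).coeff 1` is
the coefficient of `g⁻¹` of `∑ k, A j k * bar (y k)`.) -/
def S_REP : Prop :=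
  ∀ (G : Type) [Group G] (n : ℕ) (A : Matrix (Fin n) (Fin n) (MonoidAlgebra ℤ G)), IsUnit A →
    ∀ f : G × Fin n → ℤ, {s | f s ≠ 0}.Finite →
      ∃ y : Fin n → MonoidAlgebra ℤ G, ∀ s, (herm A (bas s) y).coeff 1 = f s

/-- DF-4. `R ^ n` is generated by `bas`. -/
def S_SPAN : Prop :=
  ∀ (G : Type) [Group G] (n : ℕ),
    AddSubgroup.closure (Set.range (bas : G × Fin n → Fin n → MonoidAlgebra ℤ G)) = ⊤

/-- DF-5. From an orthogonal decomposition `R ^ n = ⨁ g L` with a finitely generated group `L` to a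
basis over `R` (a basis `ℓ k`, `k < m`, of the free abelian group `L`; `f r = ∑ k, r k • ℓ k`) with
integer values of the form. Surjective: `f` is `R`-linear and hits all `tr g (ℓ k)`. Injective: if
`∑ k, r k • ℓ k = 0` then, for `h : G`, the vector `v = ∑ k, (r k).coeff h • ℓ k ∈ L` satisfies
`B (tr h v) (tr h v) = 0` (all other parts `tr g L`, `g ≠ h`, are orthogonal to it), so `v = 0`, so
`(r k).coeff h = 0` for all `k`. Values: the coefficient of `g` of `herm A (ℓ i) (ℓ j)` is
`B (ℓ i) (tr g (ℓ j))`, which is `0` for `g ≠ 1`. -/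
def S_BASIS : Prop :=
  ∀ (G : Type) [Group G] (n : ℕ) (A : Matrix (Fin n) (Fin n) (MonoidAlgebra ℤ G))
    (B : (Fin n → MonoidAlgebra ℤ G) →+ (Fin n → MonoidAlgebra ℤ G) →+ ℤ), Pos B →
    (∀ g x y, B (tr g x) (tr g y) = B x y) →
    (∀ (g : G) x y, B x (tr g y) = (herm A x y).coeff g) →
    ∀ L : AddSubgroup (Fin n → MonoidAlgebra ℤ G), L.FG →
    (∀ g : G, g ≠ 1 → ∀ x ∈ L, ∀ y ∈ L, B x (tr g y) = 0) →
    AddSubgroup.closure {z | ∃ (g : G) (x : _), x ∈ L ∧ z = tr g x} = ⊤ →
    ∃ (m : ℕ) (f : (Fin m → MonoidAlgebra ℤ G) ≃ₗ[MonoidAlgebra ℤ G] (Fin n → MonoidAlgebra ℤ G))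
      (A₀ : Matrix (Fin m) (Fin m) ℤ), ∀ i j,
        herm A (f (Pi.single i 1)) (f (Pi.single j 1)) = MonoidAlgebra.single 1 (A₀ i j)

end concrete

end Pool.Agent.J6H6.DF
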