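import Mathlib
import Pool.Agent.J6H6.DF.Stm

set_option autoImplicit false

/-! # DF-1: the form `⟨x, y⟩`, the coefficient of `1` of `x A y*` -/

namespace Pool.Agent.J6H6.DF

namespace PFORM

variable {G : Type} [Group G] {n : ℕ}

theorem herm_add_left (A : Matrix (Fin n) (Fin n) (MonoidAlgebra ℤ G))
    (x x' y : Fin n → MonoidAlgebra ℤ G) : herm A (x + x') y = herm A x y + herm A x' y := by
  unfold herm
  rw [← Finset.sum_add_distrib]
  refine Finset.sum_congr rfl fun i _ => ?_
  rw [← Finset.sum_add_distrib]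
  refine Finset.sum_congr rfl fun j _ => ?_
  rw [Pi.add_apply, add_mul, add_mul]

theorem herm_add_right (A : Matrix (Fin n) (Fin n) (MonoidAlgebra ℤ G))
    (x y y' : Fin n → MonoidAlgebra ℤ G) : herm A x (y + y') = herm A x y + herm A x y' := by
  unfold herm
  rw [← Finset.sum_add_distrib]
  refine Finset.sum_congr rfl fun i _ => ?_
  rw [← Finset.sum_add_distrib]
  refine Finset.sum_congr rfl fun j _ => ?_
  rw [Pi.add_apply, bar_add, mul_add]

theorem bar_herm (A : Matrix (Fin n) (Fin n) (MonoidAlgebra ℤ G)) (hA : ∀ i j, bar (A i j) = A j i)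
    (x y : Fin n → MonoidAlgebra ℤ G) : bar (herm A x y) = herm A y x := by
  unfold herm
  rw [bar_sum]
  simp_rw [bar_sum]
  rw [Finset.sum_comm]
  refine Finset.sum_congr rfl fun i _ => Finset.sum_congr rfl fun j _ => ?_
  rw [bar_mul, bar_mul, bar_bar, hA, mul_assoc]

theorem herm_tr_left (A : Matrix (Fin n) (Fin n) (MonoidAlgebra ℤ G)) (g : G)
    (x y : Fin n → MonoidAlgebra ℤ G) :
    herm A (tr g x) y = MonoidAlgebra.single g 1 * herm A x y := by
  unfold herm tr
  rw [Finset.mul_sum]
  refine Finset.sum_congr rfl fun i _ => ?_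
  rw [Finset.mul_sum]
  refine Finset.sum_congr rfl fun j _ => ?_
  simp only [mul_assoc]

theorem herm_tr_right (A : Matrix (Fin n) (Fin n) (MonoidAlgebra ℤ G)) (g : G)
    (x y : Fin n → MonoidAlgebra ℤ G) :
    herm A x (tr g y) = herm A x y * MonoidAlgebra.single g⁻¹ 1 := by
  unfold herm tr
  rw [Finset.sum_mul]
  refine Finset.sum_congr rfl fun i _ => ?_
  rw [Finset.sum_mul]
  refine Finset.sum_congr rfl fun j _ => ?_
  rw [bar_mul, bar_single]
  simp only [mul_assoc]

theorem herm_bas (A : Matrix (Fin n) (Fin n) (MonoidAlgebra ℤ G)) (s t : G × Fin n) :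
    herm A (bas s) (bas t) =
      MonoidAlgebra.single s.1 1 * A s.2 t.2 * MonoidAlgebra.single t.1⁻¹ 1 := by
  classical
  unfold herm bas
  rw [Finset.sum_eq_single s.2, Finset.sum_eq_single t.2]
  · rw [Pi.single_eq_same, Pi.single_eq_same, bar_single]
  · intro j _ hj
    rw [Pi.single_eq_of_ne hj, bar_zero, mul_zero]
  · intro h
    exact absurd (Finset.mem_univ _) h
  · intro i _ hi
    refine Finset.sum_eq_zero fun j _ => ?_
    rw [Pi.single_eq_of_ne hi, zero_mul, zero_mul]
  · intro h
    exact absurd (Finset.mem_univ _) h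

theorem coeff_left (g h : G) (z : MonoidAlgebra ℤ G) :
    (MonoidAlgebra.single g 1 * z).coeff h = z.coeff (g⁻¹ * h) := by
  rw [MonoidAlgebra.coeff_single_mul_apply, one_mul]

theorem coeff_right (g h : G) (z : MonoidAlgebra ℤ G) :
    (z * MonoidAlgebra.single g 1).coeff h = z.coeff (h * g⁻¹) := by
  rw [MonoidAlgebra.coeff_mul_single_apply, mul_one]

end PFORM

open PFORM

theorem t_FORM : S_FORM := by
  intro G _ n A hA
  refine ⟨AddMonoidHom.mk' (fun x => AddMonoidHom.mk' (fun y => (herm A x y).coeff 1) ?_) ?_,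
    fun x y => rfl, ?_, ?_, ?_, ?_⟩
  · intro y y'
    rw [herm_add_right, MonoidAlgebra.coeff_add, Finsupp.add_apply]
  · intro x x'
    refine AddMonoidHom.ext fun y => ?_
    show (herm A (x + x') y).coeff 1 = (herm A x y).coeff 1 + (herm A x' y).coeff 1
    rw [herm_add_left, MonoidAlgebra.coeff_add, Finsupp.add_apply]
  · intro x y
    show (herm A x y).coeff 1 = (herm A y x).coeff 1
    rw [← bar_herm A hA x y, coeff_bar, inv_one]
  · intro g x y
    show (herm A (tr g x) (tr g y)).coeff 1 = (herm A x y).coeff 1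
    rw [herm_tr_left, herm_tr_right, coeff_left, coeff_right, mul_one, inv_inv, inv_mul_cancel]
  · intro g x y
    show (herm A x (tr g y)).coeff 1 = (herm A x y).coeff g
    rw [herm_tr_right, coeff_right, one_mul, inv_inv]
  · intro s t
    show (herm A (bas s) (bas t)).coeff 1 = (A s.2 t.2).coeff (s.1⁻¹ * t.1)
    rw [herm_bas, coeff_right, coeff_left, one_mul, inv_inv]

end Pool.Agent.J6H6.DF
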