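import Pool.Agent.J6H6.DF.Stm

set_option autoImplicit false

/-!
# Project DG (helper6): one finite quotient suffices. Independent modules.
-/

namespace Pool.Agent.J6H6.DF

/-- RS-SUPP. The support of a short indecomposable vector is connected and has at most `2 K`
points. Proof: let `W k = {t ∈ supp x | t ∈ T (j + k)}` (finite sets, increasing, `W 0` nonempty). If
`W k = W (k+1)` then `x = y + z`, `y = x.filter (· ∈ T (j + k))`, `z` the rest, and `B y z = 0` by `hT` (all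
neighbours in `supp x` of points of `W k` are in `W (k+1) = W k`), so `z = 0` as `y ≠ 0`, so `supp x = W k`.
Otherwise `card (W k) ≥ k + 1` for all `k ≤ 2 K`, but `card (supp x) ≤ ∑ (x s)^2 ≤ 2 K`. -/
def S_SUPP : Prop :=
  ∀ (S : Type) (B : (S →₀ ℤ) →+ (S →₀ ℤ) →+ ℤ), Pos B → ∀ K : ℕ,
    (∀ (x : S →₀ ℤ) (F : Finset S), ∑ s ∈ F, (x s) ^ 2 ≤ K * B x x) →
    ∀ T : ℕ → Set S, (∀ k, T k ⊆ T (k + 1)) →
    (∀ k s t, s ∈ T k → B (Finsupp.single s 1) (Finsupp.single t 1) ≠ 0 → t ∈ T (k + 1)) →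
    ∀ x, Indec B x → B x x ≤ 2 → ∀ j, (∃ s ∈ T j, x s ≠ 0) → ∀ t, x t ≠ 0 → t ∈ T (j + 2 * K)

/-- RS-NEAR. In the proof of `t_COMP` (file PCOMP.lean): every `x` in the component of `a` is
joined to `a` by some `c`. -/
def S_NEAR : Prop :=
  ∀ (V : Type) [AddCommGroup V] (B : V →+ V →+ ℤ), Pos B → ∀ a ∈ Short B, ∀ x ∈ Comp B a,
    ∃ c ∈ Short B, B a c ≠ 0 ∧ B c x ≠ 0

/-- RS-GEN. Proof: `U` the set in the conclusion, `U' = Short B \ U`. Elements of `U'` are orthogonal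
to `U` (components) and to `e`. Write `e = y + z`, `y ∈ closure U`, `z ∈ closure U'`; then
`B z z = B z e - B z y = 0`, so `z = 0`. -/
def S_GEN : Prop :=
  ∀ (V : Type) [AddCommGroup V] (B : V →+ V →+ ℤ), Pos B → AddSubgroup.closure (Short B) = ⊤ →
    ∀ e, e ∈ AddSubgroup.closure {x | ∃ a ∈ Short B, B e a ≠ 0 ∧ x ∈ Comp B a}

/-- RS-LIFT. Proof: let `M` be the set of `x : S →₀ ℤ` supported in `D`. `Finsupp.mapDomain p` is injective
on `M`, preserves the form there, and its image contains all `x'` supported in `p '' D`. By induction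
on the closure every element of the closure in the hypothesis is `mapDomain p y` with `y ∈ M` and
`y ∈ closure {x | B x x ≤ 2}`. -/
def S_LIFT : Prop :=
  ∀ (S S' : Type) (p : S → S') (B : (S →₀ ℤ) →+ (S →₀ ℤ) →+ ℤ) (B' : (S' →₀ ℤ) →+ (S' →₀ ℤ) →+ ℤ)
    (D : Set S), Set.InjOn p D →
    (∀ s ∈ D, ∀ t ∈ D, B (Finsupp.single s 1) (Finsupp.single t 1) =
      B' (Finsupp.single (p s) 1) (Finsupp.single (p t) 1)) →
    ∀ s ∈ D, Finsupp.single (p s) (1 : ℤ) ∈
      AddSubgroup.closure {x : S' →₀ ℤ | B' x x ≤ 2 ∧ ∀ t, x t ≠ 0 → t ∈ p '' D} →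
    Finsupp.single s (1 : ℤ) ∈ AddSubgroup.closure {x : S →₀ ℤ | B x x ≤ 2}

/-- RS-BESS. Bessel's inequality for the coordinates, with a constant which does not depend on the
quotient `Q`. Proof: `K` is the sum of the absolute values of all coefficients of `C`. Over `ℤQ` let
`A' = A.map f`, `C' = C.map f` with the ring homomorphism `f = MonoidAlgebra.mapDomainRingHom ℤ π`. `C'` is
hermitian (inverse of a hermitian matrix). With `B` from `t_FORM Q n A'` and `a s = tr s.1 (C' s.2)` (rows of `C'`):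
`B (a s) x = (x s.2).coeff s.1` and `B (a s) (a t) = (C' s.2 t.2).coeff (s.1⁻¹ * t.1)`, whose sums over
`t ∈ F` of absolute values are at most `K`. Use `Pos.bessel` (Core.lean). -/
def S_BESS : Prop :=
  ∀ (G : Type) [Group G] (n : ℕ) (A C : Matrix (Fin n) (Fin n) (MonoidAlgebra ℤ G)),
    A * C = 1 → C * A = 1 →
    ∃ K : ℕ, ∀ (Q : Type) [Group Q] (π : G →* Q),
      (∀ i j, bar ((A.map (MonoidAlgebra.mapDomainRingHom ℤ π)) i j) =
        (A.map (MonoidAlgebra.mapDomainRingHom ℤ π)) j i) →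
      (∀ x, x ≠ 0 → 0 < (herm (A.map (MonoidAlgebra.mapDomainRingHom ℤ π)) x x).coeff 1) →
      ∀ (x : Fin n → MonoidAlgebra ℤ Q) (F : Finset (Q × Fin n)),
        ∑ s ∈ F, ((x s.2).coeff s.1) ^ 2 ≤
          K * (herm (A.map (MonoidAlgebra.mapDomainRingHom ℤ π)) x x).coeff 1

end Pool.Agent.J6H6.DF
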