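import Pool.Agent.J6H6.DF.Inv
import Pool.Agent.J6H6.DF.Stm3

set_option autoImplicit false

/-!
# Coordinates, and the maps of group rings
-/

namespace Pool.Agent.J6H6.DF

section coord

variable {Q : Type} [Group Q] {n : ℕ}

/-- The vector with given coordinates. -/
noncomputable def vec : ((Q × Fin n) →₀ ℤ) →+ (Fin n → MonoidAlgebra ℤ Q) :=
  Finsupp.liftAddHom fun s => zmultiplesHom _ (bas s)

theorem vec_single (s : Q × Fin n) (c : ℤ) : vec (Finsupp.single s c) = c • bas s := by
  unfold vec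
  rw [Finsupp.liftAddHom_apply_single, zmultiplesHom_apply]

theorem coeff_bas (s t : Q × Fin n) : ((bas s : Fin n → MonoidAlgebra ℤ Q) t.2).coeff t.1 =
    Finsupp.single s (1 : ℤ) t := by
  classical
  unfold bas
  rw [Finsupp.single_apply]
  by_cases h : t.2 = s.2
  · rw [h, Pi.single_eq_same, MonoidAlgebra.coeff_single, Finsupp.single_apply]
    by_cases h1 : s.1 = t.1
    · rw [if_pos h1, if_pos (Prod.ext h1 h.symm)]
    · rw [if_neg h1, if_neg (fun h2 => h1 (by rw [h2]))]
  · rw [Pi.single_eq_of_ne h, MonoidAlgebra.coeff_zero, Finsupp.zero_apply,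
      if_neg (fun h2 => h (by rw [h2]))]

theorem coeff_vec (f : (Q × Fin n) →₀ ℤ) (t : Q × Fin n) : ((vec f) t.2).coeff t.1 = f t := by
  classical
  induction f using Finsupp.induction_linear with
  | zero => rw [map_zero]; simp
  | add f g h1 h2 =>
    rw [map_add, Pi.add_apply, MonoidAlgebra.coeff_add, Finsupp.add_apply, h1, h2,
      Finsupp.add_apply]
  | single s c =>
    rw [vec_single, Pi.smul_apply]
    have h1 : (c • (bas s : Fin n → MonoidAlgebra ℤ Q) t.2).coeff t.1 =
        c * ((bas s : Fin n → MonoidAlgebra ℤ Q) t.2).coeff t.1 := by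
      rw [MonoidAlgebra.coeff_smul, Finsupp.smul_apply, smul_eq_mul]
    rw [h1, coeff_bas, Finsupp.single_apply, Finsupp.single_apply]
    split_ifs <;> simp

theorem vec_injective : Function.Injective (vec : ((Q × Fin n) →₀ ℤ) →+ _) := by
  intro f g h
  ext t
  rw [← coeff_vec, ← coeff_vec, h]

theorem vec_surjective : Function.Surjective (vec : ((Q × Fin n) →₀ ℤ) →+ _) := by
  intro x
  have hx : x ∈ AddSubgroup.closure (Set.range (bas : Q × Fin n → Fin n → MonoidAlgebra ℤ Q)) := by
    rw [t_SPAN Q n]; trivial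
  have h : AddSubgroup.closure (Set.range (bas : Q × Fin n → Fin n → MonoidAlgebra ℤ Q)) ≤
      AddMonoidHom.range vec := by
    refine (AddSubgroup.closure_le _).mpr ?_
    rintro _ ⟨s, rfl⟩
    exact ⟨Finsupp.single s 1, by rw [vec_single, one_smul]⟩
  exact h hx

/-- The form in coordinates. -/
noncomputable def BF (B : (Fin n → MonoidAlgebra ℤ Q) →+ (Fin n → MonoidAlgebra ℤ Q) →+ ℤ) :
    ((Q × Fin n) →₀ ℤ) →+ ((Q × Fin n) →₀ ℤ) →+ ℤ :=
  AddMonoidHom.mk' (fun f => (B (vec f)).comp vec) fun f g => by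
    refine AddMonoidHom.ext fun h => ?_
    show B (vec (f + g)) (vec h) = B (vec f) (vec h) + B (vec g) (vec h)
    rw [map_add, map_add, AddMonoidHom.add_apply]

theorem BF_apply (B : (Fin n → MonoidAlgebra ℤ Q) →+ (Fin n → MonoidAlgebra ℤ Q) →+ ℤ)
    (f g : (Q × Fin n) →₀ ℤ) : BF B f g = B (vec f) (vec g) := rfl

theorem BF_pos {B : (Fin n → MonoidAlgebra ℤ Q) →+ (Fin n → MonoidAlgebra ℤ Q) →+ ℤ}
    (hB : Pos B) : Pos (BF B) :=
  ⟨fun x y => hB.symm _ _, fun x hx => hB.pos _ fun h => hx (vec_injective (by rw [h, map_zero]))⟩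

/-- Transfer of closures. -/
theorem closure_iff (B : (Fin n → MonoidAlgebra ℤ Q) →+ (Fin n → MonoidAlgebra ℤ Q) →+ ℤ)
    (f : (Q × Fin n) →₀ ℤ) : f ∈ AddSubgroup.closure {x | BF B x x ≤ 2} ↔
      vec f ∈ AddSubgroup.closure {x | B x x ≤ 2} := by
  have h1 : AddSubgroup.closure {x | B x x ≤ 2} =
      (AddSubgroup.closure {x | BF B x x ≤ 2}).map vec := by
    rw [AddMonoidHom.map_closure]
    congr 1
    ext x
    constructor
    · intro hx
      obtain ⟨f, rfl⟩ := vec_surjective x
      exact ⟨f, hx, rfl⟩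
    · rintro ⟨f, hf, rfl⟩
      exact hf
  rw [h1, AddSubgroup.mem_map]
  constructor
  · intro h; exact ⟨f, h, rfl⟩
  · rintro ⟨g, hg, h⟩
    rw [← vec_injective h]; exact hg

/-- Expansion in coordinates. -/
theorem BF_ne {S : Type} {B : (S →₀ ℤ) →+ (S →₀ ℤ) →+ ℤ} {f g : S →₀ ℤ} (h : B f g ≠ 0) :
    ∃ s t, f s ≠ 0 ∧ g t ≠ 0 ∧ B (Finsupp.single s 1) (Finsupp.single t 1) ≠ 0 := by
  classical
  by_contra hcon
  push Not at hcon
  apply h
  have hf : f = ∑ s ∈ f.support, f s • Finsupp.single s (1 : ℤ) := by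
    conv_lhs => rw [← Finsupp.sum_single f]
    unfold Finsupp.sum
    refine Finset.sum_congr rfl fun s _ => ?_
    rw [Finsupp.smul_single, smul_eq_mul, mul_one]
  have hg : g = ∑ s ∈ g.support, g s • Finsupp.single s (1 : ℤ) := by
    conv_lhs => rw [← Finsupp.sum_single g]
    unfold Finsupp.sum
    refine Finset.sum_congr rfl fun s _ => ?_
    rw [Finsupp.smul_single, smul_eq_mul, mul_one]
  have e1 : ∀ y, B f y = ∑ s ∈ f.support, f s • B (Finsupp.single s 1) y := by
    intro y
    conv_lhs => rw [hf]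
    rw [map_sum, AddMonoidHom.finsetSum_apply]
    refine Finset.sum_congr rfl fun s _ => ?_
    rw [map_zsmul, AddMonoidHom.smul_apply]
  have e2 : ∀ x, B x g = ∑ t ∈ g.support, g t • B x (Finsupp.single t 1) := by
    intro x
    conv_lhs => rw [hg]
    rw [map_sum]
    refine Finset.sum_congr rfl fun s _ => ?_
    rw [map_zsmul]
  rw [e1]
  refine Finset.sum_eq_zero fun s hs => ?_
  rw [e2, Finset.sum_eq_zero, smul_zero]
  intro t ht
  rw [hcon s t (Finsupp.mem_support_iff.mp hs) (Finsupp.mem_support_iff.mp ht), smul_zero]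

end coord

section maps

variable {G Q : Type} [Group G] [Group Q] (π : G →* Q)

/-- The homomorphism of group rings. -/
noncomputable abbrev rh : MonoidAlgebra ℤ G →+* MonoidAlgebra ℤ Q :=
  MonoidAlgebra.mapDomainRingHom ℤ π

theorem rh_single (g : G) (r : ℤ) : rh π (MonoidAlgebra.single g r) = MonoidAlgebra.single (π g) r := by
  simp [rh]

theorem bar_rh (x : MonoidAlgebra ℤ G) : bar (rh π x) = rh π (bar x) := by
  induction x using MonoidAlgebra.induction_linear with
  | zero => rw [map_zero, bar_zero, bar_zero, map_zero]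
  | add x y h1 h2 => rw [map_add, bar_add, h1, h2, bar_add, map_add]
  | single g r => rw [rh_single, bar_single, bar_single, rh_single, map_inv]

theorem coeff_rh (x : MonoidAlgebra ℤ G) (q : Q) : (rh π x).coeff q =
    x.coeff.sum fun g r => Finsupp.single (π g) r q := by
  classical
  induction x using MonoidAlgebra.induction_linear with
  | zero => rw [map_zero]; simp
  | add x y h1 h2 =>
    rw [map_add, MonoidAlgebra.coeff_add, Finsupp.add_apply, h1, h2, MonoidAlgebra.coeff_add,
      Finsupp.sum_add_index']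
    · intro g; simp
    · intro g r s; simp
  | single g r =>
    rw [rh_single, MonoidAlgebra.coeff_single, MonoidAlgebra.coeff_single,
      Finsupp.sum_single_index (by simp)]

theorem coeff_rh_ne {x : MonoidAlgebra ℤ G} {q : Q} (h : (rh π x).coeff q ≠ 0) :
    ∃ g, x.coeff g ≠ 0 ∧ π g = q := by
  classical
  by_contra hcon
  push Not at hcon
  apply h
  rw [coeff_rh]
  refine Finset.sum_eq_zero fun g hg => ?_
  exact Finsupp.single_eq_of_ne (Ne.symm (hcon g (Finsupp.mem_support_iff.mp hg)))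

theorem coeff_rh_eq {x : MonoidAlgebra ℤ G} {u : G} (h : ∀ g, x.coeff g ≠ 0 → π g = π u → g = u) :
    (rh π x).coeff (π u) = x.coeff u := by
  classical
  rw [coeff_rh]
  show ∑ g ∈ x.coeff.support, Finsupp.single (π g) (x.coeff g) (π u) = _
  by_cases hu : x.coeff u = 0
  · rw [hu]
    refine Finset.sum_eq_zero fun g hg => ?_
    refine Finsupp.single_eq_of_ne (fun h1 => ?_)
    have h2 := Finsupp.mem_support_iff.mp hg
    rw [h g h2 h1.symm] at h2
    exact h2 hu
  · rw [Finset.sum_eq_single u]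
    · rw [Finsupp.single_eq_same]
    · intro g hg hgu
      exact Finsupp.single_eq_of_ne fun h1 => hgu (h g (Finsupp.mem_support_iff.mp hg) h1.symm)
    · intro h1
      exact absurd (Finsupp.mem_support_iff.mpr hu) h1

end maps

end Pool.Agent.J6H6.DF
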