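import Pool.Agent.J6H6.DF.Lat2

set_option autoImplicit false

/-!
# A positive form is extended from the integers iff the components are finite
-/

namespace Pool.Agent.J6H6.DF

open Relation

variable {G : Type} [Group G] {n : ℕ}

theorem fin_comp (tf : ∀ (g : G) (k : ℕ), 1 ≤ k → g ^ k = 1 → g = 1)
    (A : Matrix (Fin n) (Fin n) (MonoidAlgebra ℤ G)) (hA : adj A = A)
    (hu : IsUnit A) (hpos : ∀ x : Fin n → MonoidAlgebra ℤ G, x ≠ 0 → 0 < (herm A x x).coeff 1)
    (N : ℤ)
    (hgen : AddSubgroup.closure {x : Fin n → MonoidAlgebra ℤ G | (herm A x x).coeff 1 ≤ N} = ⊤)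
    (B : (Fin n → MonoidAlgebra ℤ G) →+ (Fin n → MonoidAlgebra ℤ G) →+ ℤ)
    (hB1 : ∀ x y, B x y = (herm A x y).coeff 1) :
    (∃ (S : (Matrix (Fin n) (Fin n) (MonoidAlgebra ℤ G))ˣ) (A₀ : Matrix (Fin n) (Fin n) ℤ),
      S.1 * A * adj S.1 = ext A₀) ↔ ∀ a ∈ ShortN B N, (CompN B N a).Finite := by
  classical
  have hA' : ∀ i j, bar (A i j) = A j i := fun i j => congrFun (congrFun hA j) i
  obtain ⟨B', hB1', hB2, hB3, hB4, hB5⟩ := t_FORM G n A hA'
  obtain rfl : B' = B := by
    refine AddMonoidHom.ext fun x => AddMonoidHom.ext fun y => ?_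
    rw [hB1, hB1']
  have hB : Pos B' := ⟨hB2, fun x hx => by rw [hB1]; exact hpos x hx⟩
  obtain ⟨K, hK⟩ := t_ROW G n A
  have span := t_SPAN G n
  have row : ∀ (s : G × Fin n) (F : Finset (G × Fin n)), ∑ t ∈ F, |B' (bas s) (bas t)| ≤ K := by
    intro s F
    simp_rw [hB5]
    exact hK s F
  have rep : ∀ f : G × Fin n → ℤ, {s | f s ≠ 0}.Finite → ∃ y, ∀ s, B' (bas s) y = f s := by
    intro f hf
    obtain ⟨y, hy⟩ := t_REP G n A hu f hf
    exact ⟨y, fun s => by rw [hB1]; exact hy s⟩
  constructor
  · rintro ⟨S, A₀, hS⟩ a ha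
    -- the orthogonal summands
    let b : G → Fin n → (Fin n → MonoidAlgebra ℤ G) := fun g i => tr g (S.1 i)
    have hb : ∀ g h i j, g ≠ h → B' (b g i) (b h j) = 0 := by
      intro g h i j hgh
      have h1 : B' (b g i) (b h j) = B' (S.1 i) (tr (g⁻¹ * h) (S.1 j)) := by
        rw [← hB3 g (S.1 i) (tr (g⁻¹ * h) (S.1 j)), ← tr_mul, mul_inv_cancel_left]
      rw [h1, hB4, ← mul_adj_apply, hS]
      show (MonoidAlgebra.single 1 (A₀ i j)).coeff (g⁻¹ * h) = 0
      rw [MonoidAlgebra.coeff_single]
      refine Finsupp.single_eq_of_ne ?_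
      intro h2
      exact hgh (inv_mul_eq_one.mp h2)
    let L : G → AddSubgroup (Fin n → MonoidAlgebra ℤ G) := fun g =>
      AddSubgroup.closure (Set.range (b g))
    let L' : G → AddSubgroup (Fin n → MonoidAlgebra ℤ G) := fun g =>
      AddSubgroup.closure {x | ∃ h i, h ≠ g ∧ x = b h i}
    have hspan : ∀ x, x ∈ AddSubgroup.closure {x | ∃ h i, x = b h i} := by
      -- the rows of `S` generate
      intro x
      have h1 : ∀ (r : MonoidAlgebra ℤ G) (i : Fin n),
          (fun k => r * S.1 i k) ∈ AddSubgroup.closure {x | ∃ h i, x = b h i} := by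
        intro r i
        induction r using MonoidAlgebra.induction_linear with
        | zero =>
          have : (fun k => (0 : MonoidAlgebra ℤ G) * S.1 i k) = 0 := by
            funext k; rw [zero_mul]; rfl
          rw [this]; exact zero_mem _
        | add r s h1 h2 =>
          have : (fun k => (r + s) * S.1 i k) = (fun k => r * S.1 i k) + fun k => s * S.1 i k := by
            funext k; rw [add_mul]; rfl
          rw [this]; exact add_mem h1 h2
        | single g c =>
          have : (fun k => MonoidAlgebra.single g c * S.1 i k) = c • b g i := by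
            funext k
            show MonoidAlgebra.single g c * S.1 i k = c • (MonoidAlgebra.single g 1 * S.1 i k)
            rw [← smul_mul_assoc, MonoidAlgebra.smul_single, smul_eq_mul, mul_one]
          rw [this]
          have h5 : b g i ∈ AddSubgroup.closure {x | ∃ h i, x = b h i} :=
            AddSubgroup.subset_closure ⟨g, i, rfl⟩
          exact zsmul_mem h5 c
      have h2 : x = ∑ i, fun k => (Matrix.vecMul x S⁻¹.1) i * S.1 i k := by
        have h3 : x = Matrix.vecMul (Matrix.vecMul x S⁻¹.1) S.1 := by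
          rw [Matrix.vecMul_vecMul, ← Units.val_mul, inv_mul_cancel, Units.val_one,
            Matrix.vecMul_one]
        conv_lhs => rw [h3]
        funext k
        rw [Finset.sum_apply]
        rfl
      rw [h2]
      exact sum_mem fun i _ => h1 _ i
    have hsplit : ∀ g x, ∃ y ∈ L g, ∃ z ∈ L' g, y + z = x := by
      intro g x
      rw [← AddSubgroup.mem_sup]
      have h1 := hspan x
      refine (AddSubgroup.closure_le (K := L g ⊔ L' g)).mpr ?_ h1
      rintro _ ⟨h, i, rfl⟩
      by_cases hh : h = g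
      · subst hh
        exact AddSubgroup.mem_sup_left (AddSubgroup.subset_closure ⟨i, rfl⟩)
      · exact AddSubgroup.mem_sup_right (AddSubgroup.subset_closure ⟨h, i, hh, rfl⟩)
    have horth : ∀ g, ∀ y ∈ L g, ∀ z ∈ L' g, B' y z = 0 := by
      intro g y hy z hz
      have h1 : ∀ h i, h ≠ g → ∀ y ∈ L g, B' y (b h i) = 0 := by
        intro h i hh y hy
        have h2 : L g ≤ (B'.flip (b h i)).ker := by
          refine (AddSubgroup.closure_le _).mpr ?_
          rintro _ ⟨j, rfl⟩
          exact hb g h j i (Ne.symm hh)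
        exact h2 hy
      have h3 : L' g ≤ (B' y).ker := by
        refine (AddSubgroup.closure_le _).mpr ?_
        rintro _ ⟨h, i, hh, rfl⟩
        exact h1 h i hh y hy
      exact h3 hz
    have hLL' : ∀ g h, g ≠ h → L h ≤ L' g := by
      intro g h hgh
      refine (AddSubgroup.closure_le _).mpr ?_
      rintro _ ⟨i, rfl⟩
      exact AddSubgroup.subset_closure ⟨h, i, hgh.symm, rfl⟩
    have hself : ∀ g, ∀ x ∈ L g, x ≠ 0 → ∃ i, B' (b g i) x ≠ 0 := by
      intro g x hx hx0
      by_contra hcon
      push Not at hcon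
      have h2 : L g ≤ (B'.flip x).ker := by
        refine (AddSubgroup.closure_le _).mpr ?_
        rintro _ ⟨j, rfl⟩
        exact hcon j
      exact (hB.pos x hx0).ne' (h2 hx)
    have hin : ∀ x, Indec B' x → ∃ g, x ∈ L g := by
      intro x hx
      have h1 : ∃ h i, B' (b h i) x ≠ 0 := by
        by_contra hcon
        push Not at hcon
        have h2 : AddSubgroup.closure {x | ∃ h i, x = b h i} ≤ (B'.flip x).ker := by
          refine (AddSubgroup.closure_le _).mpr ?_
          rintro _ ⟨h, j, rfl⟩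
          exact hcon h j
        exact (hB.pos x hx.1).ne' (h2 (hspan x))
      obtain ⟨g, i, hi⟩ := h1
      obtain ⟨y, hy, z, hz, hyz⟩ := hsplit g x
      refine ⟨g, ?_⟩
      rcases hx.2 y z hyz (horth g y hy z hz) with h2 | h2
      · exfalso
        apply hi
        rw [← hyz, h2, zero_add]
        exact horth g _ (AddSubgroup.subset_closure ⟨i, rfl⟩) z hz
      · rw [← hyz, h2, add_zero]
        exact hy
    obtain ⟨g, hg⟩ := hin a ha.1.indec
    have hall : ∀ x ∈ CompN B' N a, x ∈ L g := by
      intro x hx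
      have hx' : ReflTransGen (fun y z => z ∈ ShortN B' N ∧ B' y z ≠ 0) a x := hx
      induction hx' with
      | refl => exact hg
      | @tail y z h1 h2 ih =>
        have h3 := ih h1
        obtain ⟨h, hh⟩ := hin z h2.1.1.indec
        by_cases hgh : g = h
        · rw [hgh]; exact hh
        · exact absurd (horth g y h3 z (hLL' g h hgh hh)) h2.2
    have hfin : (⋃ i : Fin n, {x | Indec B' x ∧ B' x x ≤ N ∧ B' (b g i) x ≠ 0}).Finite :=
      Set.finite_iUnion fun i => finite_nb hB bas span row rep (b g i) N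
    refine hfin.subset ?_
    intro x hx
    have h1 := hall x hx
    have h2 : x ∈ ShortN B' N := comp_shortN ha hx
    obtain ⟨i, hi⟩ := hself g x h1 h2.1.1
    exact Set.mem_iUnion.mpr ⟨i, h2.1.indec, h2.2, hi⟩
  · intro hcomp
    let act : G → (Fin n → MonoidAlgebra ℤ G) →+ (Fin n → MonoidAlgebra ℤ G) :=
      fun g => AddMonoidHom.mk' (tr g) (tr_add g)
    have hact : Act B' act := by
      refine ⟨tr_one, tr_mul, hB3, fun x y => ?_⟩
      refine ((herm A x y).coeff.support.finite_toSet).subset ?_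
      intro g hg
      have hg' : B' x (tr g y) ≠ 0 := hg
      rw [hB4] at hg'
      exact Finset.mem_coe.mpr (Finsupp.mem_support_iff.mpr hg')
    have gen : AddSubgroup.closure (ShortN B' N) = ⊤ := by
      rw [eq_top_iff, ← hgen]
      refine (AddSubgroup.closure_le _).mpr fun x hx => ?_
      have h1 : B' x x ≤ N := by rw [hB1]; exact hx
      exact shortN_gen hB (B' x x).toNat x (Int.self_le_toNat _) h1
    obtain ⟨L, h1, h2, h3⟩ := exists_LN hB hact tf hcomp gen
      (Finset.univ.image fun i : Fin n => (bas ((1 : G), i) : Fin n → MonoidAlgebra ℤ G)) (by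
        rw [eq_top_iff, ← span]
        refine AddSubgroup.closure_mono ?_
        rintro _ ⟨s, rfl⟩
        exact ⟨s.1, bas (1, s.2), Finset.mem_image.mpr ⟨s.2, Finset.mem_univ _, rfl⟩, bas_eq s⟩)
    obtain ⟨m, f, A₀, h⟩ := t_BASIS G n A B' hB hB3 hB4 L h1 h2 h3
    obtain rfl : m = n := rank_eq f
    obtain ⟨S, hS⟩ := exists_unit f
    refine ⟨S, A₀, ?_⟩
    refine Matrix.ext fun i j => ?_
    rw [mul_adj_apply, hS, hS, h]
    rfl

end Pool.Agent.J6H6.DF
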