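import Pool.Agent.J6H6.DF.Stm3
import Pool.Agent.J6H6.DF.Core
import Pool.Agent.J6H6.DF.PFORM

set_option autoImplicit false

/-!
# RS-BESS
-/

namespace Pool.Agent.J6H6.DF

namespace PBESS

open PFORM

variable {G Q : Type} [Group G] [Group Q] {n : ℕ}

/-- sum of the absolute values of the coefficients -/
noncomputable def nm (z : MonoidAlgebra ℤ G) : ℕ := ∑ g ∈ z.coeff.support, (z.coeff g).natAbs

theorem coeff_map (π : G →* Q) (z : MonoidAlgebra ℤ G) (q : Q) [DecidableEq Q] :
    (MonoidAlgebra.mapDomainRingHom ℤ π z).coeff q =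
      ∑ g ∈ z.coeff.support, if π g = q then z.coeff g else 0 := by
  classical
  have h0 : z = ∑ g ∈ z.coeff.support, MonoidAlgebra.single g (z.coeff g) := by
    ext h
    rw [MonoidAlgebra.coeff_sum, Finsupp.finsetSum_apply]
    have h1 : ∀ g ∈ z.coeff.support,
        (MonoidAlgebra.single g (z.coeff g)).coeff h = if g = h then z.coeff h else 0 := by
      intro g _
      rw [MonoidAlgebra.coeff_single, Finsupp.single_apply]
      by_cases hh : g = h
      · subst hh; rfl
      · rw [if_neg hh, if_neg hh]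
    rw [Finset.sum_congr rfl h1, Finset.sum_ite_eq']
    by_cases h3 : h ∈ z.coeff.support
    · rw [if_pos h3]
    · rw [if_neg h3, Finsupp.notMem_support_iff.mp h3]
  have h1 : MonoidAlgebra.mapDomainRingHom ℤ π z =
      ∑ g ∈ z.coeff.support, MonoidAlgebra.single (π g) (z.coeff g) := by
    conv_lhs => rw [h0]
    rw [map_sum]
    refine Finset.sum_congr rfl fun g _ => ?_
    simp
  rw [h1, MonoidAlgebra.coeff_sum, Finsupp.finsetSum_apply]
  refine Finset.sum_congr rfl fun g _ => ?_
  rw [MonoidAlgebra.coeff_single, Finsupp.single_apply]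

theorem sum_map_le (π : G →* Q) (z : MonoidAlgebra ℤ G) (H : Finset Q) :
    ∑ q ∈ H, |(MonoidAlgebra.mapDomainRingHom ℤ π z).coeff q| ≤ (nm z : ℤ) := by
  classical
  calc ∑ q ∈ H, |(MonoidAlgebra.mapDomainRingHom ℤ π z).coeff q|
      ≤ ∑ q ∈ H, ∑ g ∈ z.coeff.support, |if π g = q then z.coeff g else 0| := by
        refine Finset.sum_le_sum fun q _ => ?_
        rw [coeff_map]
        exact Finset.abs_sum_le_sum_abs _ _
    _ = ∑ g ∈ z.coeff.support, ∑ q ∈ H, |if π g = q then z.coeff g else 0| := Finset.sum_comm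
    _ ≤ ∑ g ∈ z.coeff.support, |z.coeff g| := by
        refine Finset.sum_le_sum fun g _ => ?_
        have h1 : ∀ q ∈ H, |if π g = q then z.coeff g else 0| =
            if π g = q then |z.coeff g| else 0 := by
          intro q _
          split_ifs
          · rfl
          · exact abs_zero
        rw [Finset.sum_congr rfl h1, Finset.sum_ite_eq]
        split_ifs
        · exact le_rfl
        · exact abs_nonneg _
    _ = (nm z : ℤ) := by
        unfold nm
        push_cast
        rfl

theorem herm_row (A C : Matrix (Fin n) (Fin n) (MonoidAlgebra ℤ Q)) (h : C * A = 1) (i : Fin n)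
    (y : Fin n → MonoidAlgebra ℤ Q) : herm A (C i) y = bar (y i) := by
  classical
  unfold herm
  rw [Finset.sum_comm]
  have h1 : ∀ j, ∑ k, C i k * A k j * bar (y j) = (1 : Matrix (Fin n) (Fin n) (MonoidAlgebra ℤ Q)) i j * bar (y j) := by
    intro j
    rw [← h, Matrix.mul_apply, Finset.sum_mul]
  simp_rw [h1]
  rw [Finset.sum_eq_single i]
  · rw [Matrix.one_apply_eq, one_mul]
  · intro j _ hj
    rw [Matrix.one_apply_ne hj.symm, zero_mul]
  · intro h
    exact absurd (Finset.mem_univ _) h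

end PBESS

open PFORM PBESS

theorem t_BESS : S_BESS := by
  classical
  intro G _ n A C hAC hCA
  refine ⟨∑ i, ∑ j, nm (C i j), ?_⟩
  intro Q _ π hA hpos x F
  set f := MonoidAlgebra.mapDomainRingHom ℤ π with hf
  have hCA' : C.map f * A.map f = 1 := by
    rw [← Matrix.map_mul, hCA, Matrix.map_one f (map_zero f) (map_one f)]
  obtain ⟨B, hB1, hB2, -, hB4, -⟩ := t_FORM Q n (A.map f) hA
  have hP : Pos B := ⟨hB2, fun y hy => by rw [hB1]; exact hpos y hy⟩
  let a : Q × Fin n → Fin n → MonoidAlgebra ℤ Q := fun s => tr s.1 ((C.map f) s.2)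
  have ha : ∀ s y, B (a s) y = (y s.2).coeff s.1 := by
    intro s y
    rw [hB2, hB4, ← bar_herm (A.map f) hA, herm_row _ _ hCA', bar_bar]
  have row : ∀ s (F : Finset (Q × Fin n)), ∑ t ∈ F, |B (a s) (a t)| ≤
      ((∑ i, ∑ j, nm (C i j) : ℕ) : ℤ) := by
    intro s F
    have h1 : ∀ t ∈ F, |B (a s) (a t)| = |(f (C s.2 t.2)).coeff (s.1⁻¹ * t.1)| := by
      intro t _
      rw [hB2, ha]
      show |(MonoidAlgebra.single s.1 1 * f (C s.2 t.2)).coeff t.1| = _
      rw [coeff_left]
    rw [Finset.sum_congr rfl h1]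
    let e : Q × Fin n → Q × Fin n := fun t => (s.1⁻¹ * t.1, t.2)
    have hinj : Function.Injective e := by
      rintro ⟨a, i⟩ ⟨b, j⟩ h
      simp only [e, Prod.mk.injEq, mul_right_inj] at h
      exact Prod.ext h.1 h.2
    have h2 : ∑ t ∈ F, |(f (C s.2 t.2)).coeff (s.1⁻¹ * t.1)| =
        ∑ u ∈ F.image e, |(f (C s.2 u.2)).coeff u.1| := by
      rw [Finset.sum_image (fun a _ b _ h => hinj h)]
    rw [h2]
    have h3 : F.image e ⊆ (F.image fun t => s.1⁻¹ * t.1) ×ˢ (Finset.univ : Finset (Fin n)) := by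
      intro u hu
      obtain ⟨t, ht, rfl⟩ := Finset.mem_image.mp hu
      exact Finset.mem_product.mpr ⟨Finset.mem_image.mpr ⟨t, ht, rfl⟩, Finset.mem_univ _⟩
    refine (Finset.sum_le_sum_of_subset_of_nonneg h3 fun _ _ _ => abs_nonneg _).trans ?_
    rw [Finset.sum_product_right]
    push_cast
    refine le_trans (Finset.sum_le_sum fun j _ => sum_map_le π (C s.2 j) _) ?_
    exact Finset.single_le_sum (f := fun i => ∑ j, (nm (C i j) : ℤ))
      (fun i _ => Finset.sum_nonneg fun _ _ => Int.natCast_nonneg _) (Finset.mem_univ s.2)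
  have h := hP.bessel a (Int.natCast_nonneg _) row x F
  rw [← hB1]
  refine le_trans (le_of_eq ?_) h
  refine Finset.sum_congr rfl fun s _ => ?_
  rw [ha]

end Pool.Agent.J6H6.DF
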