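import Pool.Agent.J6H6.DF.Core

set_option autoImplicit false

/-!
# The decomposition of a lattice with a group action
-/

namespace Pool.Agent.J6H6.DF

open Relation

variable {V : Type} [AddCommGroup V] {B : V →+ V →+ ℤ}

theorem norm_add (hB : Pos B) {y z : V} (h : B y z = 0) :
    B (y + z) (y + z) = B y y + B z z := by
  simp only [map_add, AddMonoidHom.add_apply]
  rw [hB.symm z y, h]
  ring

theorem indec_one (hB : Pos B) {v : V} (hv : B v v = 1) : Indec B v := by
  refine ⟨fun h => ?_, fun y z hyz h => ?_⟩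
  · rw [h, map_zero] at hv
    simp at hv
  · by_contra hcon
    push Not at hcon
    have h1 := norm_add hB h
    rw [hyz, hv] at h1
    have h2 := hB.pos y hcon.1
    have h3 := hB.pos z hcon.2
    omega

/-- Vectors of norm at most `2` are sums of short vectors. -/
theorem short_gen (hB : Pos B) {x : V} (hx : B x x ≤ 2) : x ∈ AddSubgroup.closure (Short B) := by
  by_cases h0 : x = 0
  · rw [h0]; exact zero_mem _
  by_cases h1 : Indec B x
  · exact AddSubgroup.subset_closure ⟨h1, hx⟩
  · have h2 : ∃ y z, y + z = x ∧ B y z = 0 ∧ y ≠ 0 ∧ z ≠ 0 := by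
      by_contra hcon
      refine h1 ⟨h0, fun y z hyz h => ?_⟩
      by_contra h3
      push Not at h3
      exact hcon ⟨y, z, hyz, h, h3.1, h3.2⟩
    obtain ⟨y, z, hyz, h, hy, hz⟩ := h2
    have h3 := norm_add hB h
    rw [hyz] at h3
    have h4 := hB.pos y hy
    have h5 := hB.pos z hz
    have hy1 : B y y = 1 := by omega
    have hz1 : B z z = 1 := by omega
    rw [← hyz]
    exact add_mem (AddSubgroup.subset_closure ⟨indec_one hB hy1, by omega⟩)
      (AddSubgroup.subset_closure ⟨indec_one hB hz1, by omega⟩)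

section comp

theorem comp_self (a : V) : a ∈ Comp B a := ReflTransGen.refl

theorem comp_short {a x : V} (ha : a ∈ Short B) (hx : x ∈ Comp B a) : x ∈ Short B := by
  have hx' : ReflTransGen (fun y z => z ∈ Short B ∧ B y z ≠ 0) a x := hx
  induction hx' with
  | refl => exact ha
  | tail _ h _ => exact h.1

theorem comp_trans {a x y : V} (hx : x ∈ Comp B a) (hy : y ∈ Comp B x) : y ∈ Comp B a :=
  ReflTransGen.trans hx hy

theorem comp_symm (hB : Pos B) {a x : V} (ha : a ∈ Short B) (hx : x ∈ Comp B a) :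
    a ∈ Comp B x := by
  have hx' : ReflTransGen (fun y z => z ∈ Short B ∧ B y z ≠ 0) a x := hx
  induction hx' with
  | refl => exact comp_self _
  | @tail b c h1 h2 ih =>
    have hb : b ∈ Short B := comp_short ha h1
    have h3 : b ∈ Comp B c := ReflTransGen.single ⟨hb, by rw [hB.symm]; exact h2.2⟩
    exact comp_trans h3 (ih h1)

theorem comp_nb {a x y : V} (hx : x ∈ Comp B a) (hy : y ∈ Short B) (h : B x y ≠ 0) :
    y ∈ Comp B a := ReflTransGen.tail hx ⟨hy, h⟩

end comp

/-- A group acting by isometries, with matrix coefficients of finite support. -/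
structure Act {G : Type} [Group G] (B : V →+ V →+ ℤ) (act : G → V →+ V) : Prop where
  one : ∀ x, act 1 x = x
  mul : ∀ g h x, act (g * h) x = act g (act h x)
  inv : ∀ g x y, B (act g x) (act g y) = B x y
  fin : ∀ x y, {g | B x (act g y) ≠ 0}.Finite

section act

variable {G : Type} [Group G] {act : G → V →+ V}

theorem Act.inv_act (hA : Act B act) (g : G) (x : V) : act g⁻¹ (act g x) = x := by
  rw [← hA.mul, inv_mul_cancel, hA.one]

theorem Act.act_inv (hA : Act B act) (g : G) (x : V) : act g (act g⁻¹ x) = x := by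
  rw [← hA.mul, mul_inv_cancel, hA.one]

theorem Act.short (hA : Act B act) (g : G) {x : V} (hx : x ∈ Short B) : act g x ∈ Short B := by
  refine ⟨⟨fun h => hx.1.1 ?_, fun y z hyz h => ?_⟩, by rw [hA.inv]; exact hx.2⟩
  · rw [← hA.inv_act g x, h, map_zero]
  · have h1 : act g⁻¹ y + act g⁻¹ z = x := by rw [← map_add, hyz, hA.inv_act]
    rcases hx.1.2 _ _ h1 (by rw [hA.inv]; exact h) with h2 | h2
    · left; rw [← hA.act_inv g y, h2, map_zero]
    · right; rw [← hA.act_inv g z, h2, map_zero]

theorem Act.comp (hA : Act B act) (g : G) {a x : V} (hx : x ∈ Comp B a) :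
    act g x ∈ Comp B (act g a) := by
  have hx' : ReflTransGen (fun y z => z ∈ Short B ∧ B y z ≠ 0) a x := hx
  induction hx' with
  | refl => exact comp_self _
  | @tail b c h1 h2 ih => exact comp_nb (ih h1) (hA.short g h2.1) (by rw [hA.inv]; exact h2.2)

variable (hB : Pos B) (hA : Act B act) (tf : ∀ (g : G) (k : ℕ), 1 ≤ k → g ^ k = 1 → g = 1)
  (hfin : ∀ a ∈ Short B, (Comp B a).Finite)

include hB hA tf hfin in
/-- The action on the components is free. -/
theorem free {a : V} (ha : a ∈ Short B) {g : G} (hg : act g a ∈ Comp B a) : g = 1 := by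
  have h1 : ∀ k : ℕ, act (g ^ k) a ∈ Comp B a := by
    intro k
    induction k with
    | zero => rw [pow_zero, hA.one]; exact comp_self _
    | succ k ih =>
      rw [pow_succ, hA.mul]
      exact comp_trans ih (hA.comp (g ^ k) hg)
  have hf : Finite (Comp B a) := (hfin a ha).to_subtype
  obtain ⟨i, j, hij, he⟩ := Finite.exists_ne_map_eq_of_infinite
    (fun k : ℕ => (⟨act (g ^ k) a, h1 k⟩ : Comp B a))
  have he' : act (g ^ i) a = act (g ^ j) a := congrArg Subtype.val he
  have key : ∃ k, 1 ≤ k ∧ act (g ^ k) a = a := by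
    rcases lt_or_gt_of_ne hij with h | h
    · obtain ⟨k, rfl⟩ := Nat.exists_eq_add_of_lt h
      refine ⟨k + 1, by omega, ?_⟩
      rw [show i + k + 1 = i + (k + 1) by ring, pow_add, hA.mul] at he'
      have h2 := congrArg (act (g ^ i)⁻¹) he'
      rw [hA.inv_act, hA.inv_act] at h2
      exact h2.symm
    · obtain ⟨k, rfl⟩ := Nat.exists_eq_add_of_lt h
      refine ⟨k + 1, by omega, ?_⟩
      rw [show j + k + 1 = j + (k + 1) by ring, pow_add, hA.mul] at he'
      have h2 := congrArg (act (g ^ j)⁻¹) he'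
      rw [hA.inv_act, hA.inv_act] at h2
      exact h2
  obtain ⟨k, hk, hka⟩ := key
  have h3 : ∀ m : ℕ, act ((g ^ k) ^ m) a = a := by
    intro m
    induction m with
    | zero => rw [pow_zero, hA.one]
    | succ m ih => rw [pow_succ, hA.mul, hka, ih]
  have ha0 : B a a ≠ 0 := (hB.pos a ha.1.1).ne'
  have hf2 : Finite {h : G | B a (act h a) ≠ 0} := (hA.fin a a).to_subtype
  obtain ⟨p, q, hpq, he2⟩ := Finite.exists_ne_map_eq_of_infinite
    (fun m : ℕ => (⟨(g ^ k) ^ m, by
      show B a (act ((g ^ k) ^ m) a) ≠ 0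
      rw [h3]; exact ha0⟩ : {h : G | B a (act h a) ≠ 0}))
  have he3 : (g ^ k) ^ p = (g ^ k) ^ q := congrArg Subtype.val he2
  rcases lt_or_gt_of_ne hpq with h | h
  · obtain ⟨r, rfl⟩ := Nat.exists_eq_add_of_lt h
    rw [show p + r + 1 = p + (r + 1) by ring, pow_add] at he3
    have h4 : (g ^ k) ^ (r + 1) = 1 := by
      have := mul_left_cancel (he3.symm.trans (mul_one _).symm)
      exact this
    rw [← pow_mul] at h4
    exact tf g _ (Nat.one_le_iff_ne_zero.mpr (by positivity)) h4
  · obtain ⟨r, rfl⟩ := Nat.exists_eq_add_of_lt h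
    rw [show q + r + 1 = q + (r + 1) by ring, pow_add] at he3
    have h4 : (g ^ k) ^ (r + 1) = 1 := by
      have := mul_left_cancel (he3.trans (mul_one _).symm)
      exact this
    rw [← pow_mul] at h4
    exact tf g _ (Nat.one_le_iff_ne_zero.mpr (by positivity)) h4

include hB hA tf hfin in
/-- The lattice is the orthogonal sum of the translates of a finitely generated group. -/
theorem exists_L (gen : AddSubgroup.closure (Short B) = ⊤) (F : Finset V)
    (hF : AddSubgroup.closure {z | ∃ (g : G) (x : V), x ∈ F ∧ z = act g x} = ⊤) :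
    ∃ L : AddSubgroup V, L.FG ∧ (∀ g : G, g ≠ 1 → ∀ x ∈ L, ∀ y ∈ L, B x (act g y) = 0) ∧
      AddSubgroup.closure {z | ∃ (g : G) (x : V), x ∈ L ∧ z = act g x} = ⊤ := by
  classical
  -- orbits of components
  let r : Setoid (Short B) :=
    { r := fun a b => ∃ g, act g b.1 ∈ Comp B a.1
      iseqv :=
        { refl := fun a => ⟨1, by rw [hA.one]; exact comp_self _⟩
          symm := by
            rintro a b ⟨g, hg⟩
            refine ⟨g⁻¹, ?_⟩
            have h1 := hA.comp g⁻¹ (comp_symm hB a.2 hg)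
            rw [hA.inv_act] at h1
            exact h1
          trans := by
            rintro a b c ⟨g, hg⟩ ⟨h, hh⟩
            refine ⟨g * h, ?_⟩
            rw [hA.mul]
            exact comp_trans hg (hA.comp g hh) } }
  let rp : Quotient r → V := fun q => q.out.1
  have rps : ∀ q, rp q ∈ Short B := fun q => q.out.2
  let L : Set (Quotient r) → AddSubgroup V := fun P =>
    AddSubgroup.closure {y | ∃ q ∈ P, y ∈ Comp B (rp q)}
  let W : Set (Quotient r) → AddSubgroup V := fun P =>
    AddSubgroup.closure {z | ∃ (g : G) (x : V), x ∈ L P ∧ z = act g x}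
  have Lmono : ∀ P P', P ⊆ P' → L P ≤ L P' := fun P P' h =>
    AddSubgroup.closure_mono fun y hy => by
      obtain ⟨q, h1, h2⟩ := hy
      exact ⟨q, h h1, h2⟩
  have Wmono : ∀ P P', P ⊆ P' → W P ≤ W P' := fun P P' h =>
    AddSubgroup.closure_mono fun y hy => by
      obtain ⟨g, x, h1, h2⟩ := hy
      exact ⟨g, x, Lmono P P' h h1, h2⟩
  have Wact : ∀ P (g : G) x, x ∈ W P → act g x ∈ W P := by
    intro P g x hx
    have h1 : W P ≤ (W P).comap (act g) := by
      refine (AddSubgroup.closure_le _).mpr ?_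
      rintro _ ⟨h, y, hy, rfl⟩
      show act g (act h y) ∈ W P
      rw [← hA.mul]
      exact AddSubgroup.subset_closure ⟨g * h, y, hy, rfl⟩
    exact h1 hx
  have each : ∀ x : V, ∃ P : Set (Quotient r), P.Finite ∧ x ∈ W P := by
    intro x
    have hx : x ∈ AddSubgroup.closure (Short B) := by rw [gen]; trivial
    induction hx using AddSubgroup.closure_induction with
    | mem x hx =>
      obtain ⟨g, hg⟩ : ∃ g, act g x ∈ Comp B (rp ⟦⟨x, hx⟩⟧) :=
        Quotient.exact (Quotient.out_eq (⟦⟨x, hx⟩⟧ : Quotient r))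
      refine ⟨{⟦⟨x, hx⟩⟧}, Set.finite_singleton _, AddSubgroup.subset_closure
        ⟨g⁻¹, act g x, AddSubgroup.subset_closure ⟨_, rfl, hg⟩, ?_⟩⟩
      rw [hA.inv_act]
    | zero => exact ⟨∅, Set.finite_empty, zero_mem _⟩
    | add x y _ _ h1 h2 =>
      obtain ⟨P, hP, hx⟩ := h1
      obtain ⟨P', hP', hy⟩ := h2
      exact ⟨P ∪ P', hP.union hP', add_mem (Wmono _ _ Set.subset_union_left hx)
        (Wmono _ _ Set.subset_union_right hy)⟩
    | neg x _ h1 =>
      obtain ⟨P, hP, hx⟩ := h1
      exact ⟨P, hP, neg_mem hx⟩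
  choose P hPf hP using each
  set P₀ : Set (Quotient r) := ⋃ x ∈ F, P x with hP₀
  have hP₀f : P₀.Finite := Set.Finite.biUnion F.finite_toSet fun x _ => hPf x
  have htop : W P₀ = ⊤ := by
    rw [eq_top_iff, ← hF]
    refine (AddSubgroup.closure_le _).mpr ?_
    rintro _ ⟨g, x, hx, rfl⟩
    exact Wact _ g x (Wmono _ _ (Set.subset_biUnion_of_mem (u := fun x => P x) hx) (hP x))
  refine ⟨L P₀, ?_, ?_, htop⟩
  · rw [AddSubgroup.fg_iff]
    refine ⟨{y | ∃ q ∈ P₀, y ∈ Comp B (rp q)}, rfl, ?_⟩
    have h1 : {y | ∃ q ∈ P₀, y ∈ Comp B (rp q)} = ⋃ q ∈ P₀, Comp B (rp q) := by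
      ext y
      simp only [Set.mem_setOf_eq, Set.mem_iUnion, exists_prop]
    rw [h1]
    exact hP₀f.biUnion fun q _ => hfin _ (rps q)
  · intro g hg x hx y hy
    have base : ∀ x ∈ {y | ∃ q ∈ P₀, y ∈ Comp B (rp q)}, ∀ y ∈ {y | ∃ q ∈ P₀, y ∈ Comp B (rp q)},
        B x (act g y) = 0 := by
      rintro x ⟨q, -, hx⟩ y ⟨q', -, hy⟩
      by_contra hne
      have hys : y ∈ Short B := comp_short (rps q') hy
      have h1 : act g y ∈ Comp B (rp q) := comp_nb hx (hA.short g hys) hne
      have h2 : act g (rp q') ∈ Comp B (act g y) := hA.comp g (comp_symm hB (rps q') hy)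
      have h3 : act g (rp q') ∈ Comp B (rp q) := comp_trans h1 h2
      have h4 : q = q' := by
        have h5 : (⟦q.out⟧ : Quotient r) = ⟦q'.out⟧ := Quotient.sound ⟨g, h3⟩
        rw [Quotient.out_eq, Quotient.out_eq] at h5
        exact h5
      subst h4
      exact hg (free hB hA tf hfin hys (comp_trans (comp_symm hB (rps q) hy) h1))
    have h1 : ∀ y ∈ {y | ∃ q ∈ P₀, y ∈ Comp B (rp q)}, ∀ x ∈ L P₀, B x (act g y) = 0 := by
      intro y hy x hx
      have h2 : L P₀ ≤ ((B.flip (act g y)).ker) :=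
        (AddSubgroup.closure_le _).mpr fun x hx => base x hx y hy
      exact h2 hx
    have h3 : L P₀ ≤ ((B x).comp (act g)).ker :=
      (AddSubgroup.closure_le _).mpr fun y hy => h1 y hy x hx
    exact h3 hy

end act

end Pool.Agent.J6H6.DF
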