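import Pool.Agent.J6H6.DF.Stm3
import Pool.Agent.J6H6.DF.Lat

set_option autoImplicit false

/-!
# RS-GEN: every element is a sum of short vectors of the components it meets
-/

namespace Pool.Agent.J6H6.DF

theorem t_GEN : S_GEN := by
  intro V _ B hB gen e
  set U : Set V := {x | ∃ a ∈ Short B, B e a ≠ 0 ∧ x ∈ Comp B a} with hU
  set U' : Set V := {x | x ∈ Short B ∧ x ∉ U} with hU'
  have hUs : ∀ x ∈ U, x ∈ Short B := by
    rintro x ⟨a, ha, -, hx⟩
    exact comp_short ha hx
  -- orthogonality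
  have h1 : ∀ x ∈ U, ∀ x' ∈ U', B x x' = 0 := by
    rintro x ⟨a, ha, hea, hx⟩ x' ⟨hs, hn⟩
    by_contra hne
    exact hn ⟨a, ha, hea, comp_nb hx hs hne⟩
  have h2 : ∀ x' ∈ U', B e x' = 0 := by
    rintro x' ⟨hs, hn⟩
    by_contra hne
    exact hn ⟨x', hs, hne, comp_self x'⟩
  have h3 : ∀ y ∈ AddSubgroup.closure U, ∀ x' ∈ U', B y x' = 0 := by
    intro y hy x' hx'
    have h4 : AddSubgroup.closure U ≤ (B.flip x').ker :=
      (AddSubgroup.closure_le _).mpr fun x hx => h1 x hx x' hx'
    exact h4 hy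
  have h4 : ∀ y ∈ AddSubgroup.closure U, ∀ z ∈ AddSubgroup.closure U', B y z = 0 := by
    intro y hy z hz
    have h5 : AddSubgroup.closure U' ≤ (B y).ker :=
      (AddSubgroup.closure_le _).mpr fun x' hx' => h3 y hy x' hx'
    exact h5 hz
  have h5 : ∀ z ∈ AddSubgroup.closure U', B e z = 0 := by
    intro z hz
    have h6 : AddSubgroup.closure U' ≤ (B e).ker :=
      (AddSubgroup.closure_le _).mpr fun x' hx' => h2 x' hx'
    exact h6 hz
  have h6 : e ∈ AddSubgroup.closure U ⊔ AddSubgroup.closure U' := by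
    have h7 : (⊤ : AddSubgroup V) ≤ AddSubgroup.closure U ⊔ AddSubgroup.closure U' := by
      rw [← gen]
      refine (AddSubgroup.closure_le _).mpr fun x hx => ?_
      by_cases hxU : x ∈ U
      · exact (le_sup_left : AddSubgroup.closure U ≤ _) (AddSubgroup.subset_closure hxU)
      · exact (le_sup_right : AddSubgroup.closure U' ≤ _)
          (AddSubgroup.subset_closure (show x ∈ U' from ⟨hx, hxU⟩))
    exact h7 (AddSubgroup.mem_top e)
  obtain ⟨y, hy, z, hz, hyz⟩ := AddSubgroup.mem_sup.mp h6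
  have h7 : B z z = 0 := by
    have h8 : B e z = B y z + B z z := by
      rw [← hyz, map_add, AddMonoidHom.add_apply]
    rw [h5 z hz, h4 y hy z hz] at h8
    omega
  have h8 : z = 0 := by
    by_contra hne
    have := hB.pos z hne
    omega
  rw [h8, add_zero] at hyz
  rw [← hyz]
  exact hy

end Pool.Agent.J6H6.DF
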