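import Pool.Agent.J6H6.DF.Stm3

/-!
# RS-LIFT (helper47)
-/

set_option autoImplicit false

namespace Pool.Agent.J6H6.DF

/-- vectors supported in `D` are in the subgroup generated by the unit vectors -/
theorem mem_closure_single {S : Type} (D : Set S) (y : S →₀ ℤ) (hy : (y.support : Set S) ⊆ D) :
    y ∈ AddSubgroup.closure ((fun s => Finsupp.single s (1 : ℤ)) '' D) := by
  have h0 : (∑ s ∈ y.support, Finsupp.single s (y s)) ∈
      AddSubgroup.closure ((fun s => Finsupp.single s (1 : ℤ)) '' D) := by
    refine sum_mem fun s hs => ?_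
    have h : Finsupp.single s (y s) = y s • Finsupp.single s (1 : ℤ) := by
      rw [Finsupp.smul_single, smul_eq_mul, mul_one]
    rw [h]
    exact AddSubgroup.zsmul_mem _ (AddSubgroup.subset_closure
      (Set.mem_image_of_mem (fun s => Finsupp.single s (1 : ℤ)) (hy hs))) _
  have h1 : (∑ s ∈ y.support, Finsupp.single s (y s)) = y := Finsupp.sum_single y
  rwa [h1] at h0

theorem t_LIFT : S_LIFT := by
  intro S S' p B B' D hinj hform s hs hcl
  classical
  have : Nonempty S := ⟨s⟩
  let P : (S →₀ ℤ) →+ (S' →₀ ℤ) := Finsupp.mapDomain.addMonoidHom p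
  have hP : ∀ y, P y = Finsupp.mapDomain p y := fun y => rfl
  have hPs : ∀ t, P (Finsupp.single t 1) = Finsupp.single (p t) 1 := fun t => by
    rw [hP, Finsupp.mapDomain_single]
  -- the form
  have hB : ∀ y z : S →₀ ℤ, (y.support : Set S) ⊆ D → (z.support : Set S) ⊆ D →
      B y z = B' (P y) (P z) := by
    intro y z hy hz
    have h1 : ∀ t ∈ D, Set.EqOn (B.flip (Finsupp.single t 1))
        ((B'.flip (P (Finsupp.single t 1))).comp P)
        (AddSubgroup.closure ((fun s => Finsupp.single s (1 : ℤ)) '' D)) := by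
      intro t ht
      refine AddMonoidHom.eqOn_closure ?_
      rintro _ ⟨u, hu, rfl⟩
      show B (Finsupp.single u 1) (Finsupp.single t 1) =
        B' (P (Finsupp.single u 1)) (P (Finsupp.single t 1))
      rw [hPs, hPs]
      exact hform u hu t ht
    have h2 : Set.EqOn (B y) ((B' (P y)).comp P)
        (AddSubgroup.closure ((fun s => Finsupp.single s (1 : ℤ)) '' D)) := by
      refine AddMonoidHom.eqOn_closure ?_
      rintro _ ⟨t, ht, rfl⟩
      exact h1 t ht (mem_closure_single D y hy)
    exact h2 (mem_closure_single D z hz)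
  -- lifting
  have key : ∀ x' ∈ AddSubgroup.closure {x : S' →₀ ℤ | B' x x ≤ 2 ∧ ∀ t, x t ≠ 0 → t ∈ p '' D},
      ∃ y ∈ AddSubgroup.closure {x : S →₀ ℤ | B x x ≤ 2}, (y.support : Set S) ⊆ D ∧ P y = x' := by
    intro x' hx'
    induction hx' using AddSubgroup.closure_induction with
    | mem x' hx =>
      obtain ⟨h1, h2⟩ := hx
      have hq := hinj.leftInvOn_invFunOn
      set q := Function.invFunOn p D with hqdef
      have hsupp : ((Finsupp.mapDomain q x').support : Set S) ⊆ D := by
        intro u hu
        obtain ⟨t, ht, rfl⟩ := Finset.mem_image.1 (Finsupp.mapDomain_support hu)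
        obtain ⟨v, hv, rfl⟩ := h2 t (Finsupp.mem_support_iff.1 ht)
        rw [hq hv]
        exact hv
      have hPy : P (Finsupp.mapDomain q x') = x' := by
        rw [hP, ← Finsupp.mapDomain_comp]
        conv_rhs => rw [← Finsupp.mapDomain_id (v := x')]
        refine Finsupp.mapDomain_congr fun t ht => ?_
        obtain ⟨v, hv, rfl⟩ := h2 t (Finsupp.mem_support_iff.1 ht)
        show p (q (p v)) = p v
        rw [hq hv]
      refine ⟨Finsupp.mapDomain q x', AddSubgroup.subset_closure ?_, hsupp, hPy⟩
      show B _ _ ≤ 2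
      rw [hB _ _ hsupp hsupp, hPy]
      exact h1
    | zero => exact ⟨0, AddSubgroup.zero_mem _, by simp, map_zero P⟩
    | add a b _ _ iha ihb =>
      obtain ⟨y, h1, h2, h3⟩ := iha
      obtain ⟨z, h4, h5, h6⟩ := ihb
      refine ⟨y + z, AddSubgroup.add_mem _ h1 h4, ?_, by rw [map_add, h3, h6]⟩
      intro u hu
      rcases Finset.mem_union.1 (Finsupp.support_add hu) with h | h
      · exact h2 h
      · exact h5 h
    | neg a _ iha =>
      obtain ⟨y, h1, h2, h3⟩ := iha
      refine ⟨-y, AddSubgroup.neg_mem _ h1, ?_, by rw [map_neg, h3]⟩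
      rw [Finsupp.support_neg]
      exact h2
  obtain ⟨y, hy1, hy2, hy3⟩ := key _ hcl
  have he : y = Finsupp.single s 1 := by
    refine Finsupp.mapDomain_injOn D hinj hy2 ?_ (by rw [← hP, hy3, Finsupp.mapDomain_single])
    intro u hu
    have := Finsupp.support_single_subset hu
    rw [Finset.mem_singleton] at this
    rw [this]
    exact hs
  rw [← he]
  exact hy1

end Pool.Agent.J6H6.DF
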