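import Pool.Agent.J6H6.DF.Stm3
import Pool.Agent.J6H6.DF.PCOMP

/-!
# RS-NEAR: every vector of the component of `a` is joined to `a` by some `c`
-/

set_option autoImplicit false

namespace Pool.Agent.J6H6.DF

theorem t_NEAR : S_NEAR := by
  intro V _ B hB a ha y hy
  have ne : ∀ x ∈ Short B, B x x ≠ 0 := fun x hx => (hB.pos x hx.1.1).ne'
  suffices h : y ∈ Short B ∧ ∃ c ∈ Short B, B a c ≠ 0 ∧ B c y ≠ 0 from h.2
  change Relation.ReflTransGen _ a y at hy
  induction hy with
  | refl => exact ⟨ha, a, ha, ne a ha, ne a ha⟩
  | @tail x y _ hxy ih =>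
    obtain ⟨hx, c, hc, hac, hcx⟩ := ih
    obtain ⟨hy, hxy⟩ := hxy
    refine ⟨hy, ?_⟩
    by_cases h1 : B c y ≠ 0
    · exact ⟨c, hc, hac, h1⟩
    by_cases h2 : B a x ≠ 0
    · exact ⟨x, hx, h2, hxy⟩
    rw [not_not] at h1 h2
    have hx0 : 0 < B x x := hB.pos x hx.1.1
    have hx2 : B x x ≤ 2 := hx.2
    have hcases : B x x = 1 ∨ B x x = 2 := by omega
    rcases hcases with h | h
    · exfalso
      rcases hc.1.2 (B c x • x) (c - B c x • x) (by abel) (by
        rw [right_sub_smul, map_zsmul]
        simp only [AddMonoidHom.smul_apply, smul_eq_mul]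
        rw [h, hB.symm x c]
        ring) with h3 | h3
      · have h4 : B (B c x • x) x = B c x := by
          rw [map_zsmul]
          simp [h]
        rw [h3, map_zero] at h4
        exact hcx h4.symm
      · rw [sub_eq_zero] at h3
        have h4 : B c y = B c x * B x y := by
          conv_lhs => rw [h3]
          rw [map_zsmul]
          simp
        rw [h1] at h4
        rcases mul_eq_zero.1 h4.symm with h5 | h5
        · exact hcx h5
        · exact hxy h5
    · refine ⟨c - B c x • x, ⟨⟨?_, ?_⟩, ?_⟩, ?_, ?_⟩
      · intro h3
        have h4 := refl_form hB h c c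
        rw [h3, map_zero] at h4
        exact ne c hc h4.symm
      · intro u v huv huv0
        have h3 : (u - B u x • x) + (v - B v x • x) = c := by
          rw [← refl_refl hB h c, ← huv]
          simp only [map_add, AddMonoidHom.add_apply, add_smul]
          abel
        rcases hc.1.2 _ _ h3 (by rw [refl_form hB h, huv0]) with h4 | h4
        · left
          have h5 := refl_refl hB h u
          rw [h4] at h5
          simp only [map_zero, AddMonoidHom.zero_apply, zero_smul, sub_zero] at h5
          exact h5.symm
        · right
          have h5 := refl_refl hB h v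
          rw [h4] at h5
          simp only [map_zero, AddMonoidHom.zero_apply, zero_smul, sub_zero] at h5
          exact h5.symm
      · rw [refl_form hB h]
        exact hc.2
      · rw [right_sub_smul, h2, mul_zero, sub_zero]
        exact hac
      · rw [left_sub_smul, h1, zero_sub, neg_ne_zero]
        exact mul_ne_zero hcx hxy

end Pool.Agent.J6H6.DF
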