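import Pool.Agent.J6H6.DF.Stm3

set_option autoImplicit false

namespace Pool.Agent.J6H6.DF

theorem supp_bil_zero {S : Type} (B : (S →₀ ℤ) →+ (S →₀ ℤ) →+ ℤ) (y z : S →₀ ℤ)
    (h : ∀ s t, y s ≠ 0 → z t ≠ 0 → B (Finsupp.single s 1) (Finsupp.single t 1) = 0) :
    B y z = 0 := by
  have e : ∀ (s : S) (m : ℤ), Finsupp.single s m = m • Finsupp.single s (1 : ℤ) := by
    intro s m
    rw [Finsupp.smul_single, smul_eq_mul, mul_one]
  conv_lhs => rw [← Finsupp.sum_single y, ← Finsupp.sum_single z]
  rw [Finsupp.sum, Finsupp.sum, map_sum B, AddMonoidHom.finsetSum_apply]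
  refine Finset.sum_eq_zero fun s hs => ?_
  rw [map_sum]
  refine Finset.sum_eq_zero fun t ht => ?_
  rw [e s, e t, map_zsmul, map_zsmul]
  have h1 := h s t (Finsupp.mem_support_iff.1 hs) (Finsupp.mem_support_iff.1 ht)
  have h2 : (y s • B (Finsupp.single s 1)) (Finsupp.single t 1) = 0 := by
    change y s • (B (Finsupp.single s 1) (Finsupp.single t 1)) = 0
    rw [h1, smul_zero]
  rw [h2, smul_zero]

theorem t_SUPP : S_SUPP := by
  classical
  intro S B hB K hK T hT hn x hx hx2 j hj
  obtain ⟨s₀, hs₀, hxs₀⟩ := hj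
  have hmono : ∀ k, T j ⊆ T (j + k) := by
    intro k
    induction k with
    | zero => exact subset_rfl
    | succ k ih => exact ih.trans (hT (j + k))
  let W : ℕ → Finset S := fun k => x.support.filter fun s => s ∈ T (j + k)
  have hW : ∀ k, W k ⊆ W (k + 1) := by
    intro k s hs
    rw [Finset.mem_filter] at hs ⊢
    exact ⟨hs.1, hT (j + k) hs.2⟩
  have hcard : x.support.card ≤ 2 * K := by
    have h1 := hK x x.support
    have h2 : (x.support.card : ℤ) ≤ ∑ s ∈ x.support, (x s) ^ 2 := by
      rw [Finset.card_eq_sum_ones, Nat.cast_sum]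
      refine Finset.sum_le_sum fun s hs => ?_
      have h3 := Finsupp.mem_support_iff.1 hs
      have h4 : 0 < (x s) ^ 2 := by positivity
      push_cast
      omega
    have h3 : (K : ℤ) * B x x ≤ K * 2 := mul_le_mul_of_nonneg_left hx2 (Int.natCast_nonneg K)
    have h4 : (x.support.card : ℤ) ≤ K * 2 := h2.trans (h1.trans h3)
    omega
  have hB' : ∀ k, W k = W (k + 1) → ∀ t, x t ≠ 0 → t ∈ T (j + k) := by
    intro k hk
    have h1 := hx.2 (x.filter fun s => s ∈ T (j + k)) (x.filter fun s => ¬ s ∈ T (j + k))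
      (Finsupp.filter_add_filter_not x _) (supp_bil_zero B _ _ fun s t hs ht => by
        by_contra hne
        have hs' : s ∈ T (j + k) := by
          by_contra h
          exact hs (Finsupp.filter_apply_neg _ _ h)
        have ht' : ¬ t ∈ T (j + k) := by
          intro h
          exact ht (Finsupp.filter_apply_neg _ _ (not_not.2 h))
        have htx : x t ≠ 0 := by
          intro h
          apply ht
          rw [Finsupp.filter_apply, h, ite_self]
        have h2 : t ∈ W (k + 1) :=
          Finset.mem_filter.2 ⟨Finsupp.mem_support_iff.2 htx, hn _ s t hs' hne⟩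
        rw [← hk] at h2
        exact ht' (Finset.mem_filter.1 h2).2)
    rcases h1 with h1 | h1
    · exfalso
      have h2 := DFunLike.congr_fun h1 s₀
      rw [Finsupp.filter_apply_pos _ _ (hmono k hs₀)] at h2
      exact hxs₀ h2
    · intro t ht
      by_contra h
      have h2 := DFunLike.congr_fun h1 t
      rw [Finsupp.filter_apply_pos (fun s => ¬ s ∈ T (j + k)) x h] at h2
      exact ht h2
  have hC : ∀ k, k + 1 ≤ (W k).card ∨ ∀ t, x t ≠ 0 → t ∈ T (j + k) := by
    intro k
    induction k with
    | zero =>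
      left
      exact Finset.card_pos.2 ⟨s₀, Finset.mem_filter.2 ⟨Finsupp.mem_support_iff.2 hxs₀, hs₀⟩⟩
    | succ k ih =>
      rcases ih with ih | ih
      · by_cases hk : W k = W (k + 1)
        · exact Or.inr fun t ht => hT (j + k) (hB' k hk t ht)
        · left
          have := Finset.card_lt_card (Finset.ssubset_iff_subset_ne.2 ⟨hW k, hk⟩)
          omega
      · exact Or.inr fun t ht => hT (j + k) (ih t ht)
  rcases hC (2 * K) with h | h
  · exfalso
    have h1 : (W (2 * K)).card ≤ x.support.card := Finset.card_le_card (Finset.filter_subset _ _)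
    omega
  · exact h

end Pool.Agent.J6H6.DF
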