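import Pool.Agent.J6H6.DF.Coord
import Pool.Agent.J6H6.DF.PBESS
import Pool.Agent.J6H6.DF.PSUPP
import Pool.Agent.J6H6.DF.PLIFT
import Pool.Agent.J6H6.DF.PNEAR
import Pool.Agent.J6H6.DF.PGEN

set_option autoImplicit false

/-!
# One sufficiently large quotient suffices
-/

namespace Pool.Agent.J6H6.DF

open scoped Pointwise

variable {G : Type} [Group G] {n : ℕ}

/-- Support bound for the vectors needed to generate `e`. -/
theorem supp_bound {S : Type} {B : (S →₀ ℤ) →+ (S →₀ ℤ) →+ ℤ} (hB : Pos B) (K : ℕ)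
    (hK : ∀ (x : S →₀ ℤ) (F : Finset S), ∑ s ∈ F, (x s) ^ 2 ≤ K * B x x)
    (T : ℕ → Set S) (hT : ∀ k, T k ⊆ T (k + 1))
    (hloc : ∀ k s t, s ∈ T k → B (Finsupp.single s 1) (Finsupp.single t 1) ≠ 0 → t ∈ T (k + 1))
    (gen : AddSubgroup.closure {x : S →₀ ℤ | B x x ≤ 2} = ⊤) (s : S) (hs : s ∈ T 0) :
    Finsupp.single s (1 : ℤ) ∈
      AddSubgroup.closure {x | B x x ≤ 2 ∧ ∀ t, x t ≠ 0 → t ∈ T (3 + 6 * K)} := by
  have step : ∀ (m : ℕ) (a c : S →₀ ℤ), (∀ t, a t ≠ 0 → t ∈ T m) → c ∈ Short B → B a c ≠ 0 →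
      ∀ t, c t ≠ 0 → t ∈ T (m + 1 + 2 * K) := by
    intro m a c ha hc hac
    obtain ⟨s, t, h1, h2, h3⟩ := BF_ne hac
    exact t_SUPP S B hB K hK T hT hloc c hc.1 hc.2 (m + 1) ⟨t, hloc m s t (ha s h1) h3, h2⟩
  have gen' : AddSubgroup.closure (Short B) = ⊤ := by
    rw [eq_top_iff, ← gen]
    exact (AddSubgroup.closure_le _).mpr fun x hx => short_gen hB hx
  refine AddSubgroup.closure_mono ?_ (t_GEN _ B hB gen' (Finsupp.single s (1 : ℤ)))
  rintro x ⟨a, ha, hea, hx⟩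
  refine ⟨(comp_short ha hx).2, ?_⟩
  have h0 : ∀ t, (Finsupp.single s (1 : ℤ)) t ≠ 0 → t ∈ T 0 := by
    intro t ht
    by_cases hst : t = s
    · rw [hst]; exact hs
    · exact absurd (Finsupp.single_eq_of_ne hst) ht
  have h1 := step 0 _ a h0 ha hea
  obtain ⟨c, hc, hac, hcx⟩ := t_NEAR _ B hB a ha x hx
  have h2 := step _ a c h1 hc hac
  have h3 := step _ c x h2 (comp_short ha hx) hcx
  intro t ht
  have h4 := h3 t ht
  have h5 : 0 + 1 + 2 * K + 1 + 2 * K + 1 + 2 * K = 3 + 6 * K := by ring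
  rw [h5] at h4
  exact h4

theorem quotient_gen (A : Matrix (Fin n) (Fin n) (MonoidAlgebra ℤ G)) (hA : adj A = A)
    (hu : IsUnit A) (hpos : ∀ x : Fin n → MonoidAlgebra ℤ G, x ≠ 0 → 0 < (herm A x x).coeff 1) :
    ∃ F : Finset G, 1 ∉ F ∧ ∀ (Q : Type) [Group Q] (π : G →* Q), (∀ g ∈ F, π g ≠ 1) →
      (∀ x, x ≠ 0 → 0 < (herm (A.map (rh π)) x x).coeff 1) →
      AddSubgroup.closure {x | (herm (A.map (rh π)) x x).coeff 1 ≤ 2} = ⊤ →
      AddSubgroup.closure {x : Fin n → MonoidAlgebra ℤ G | (herm A x x).coeff 1 ≤ 2} = ⊤ := by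
  classical
  have hA' : ∀ i j, bar (A i j) = A j i := fun i j => congrFun (congrFun hA j) i
  obtain ⟨u, rfl⟩ := hu
  obtain ⟨K, hK⟩ := t_BESS G n u.1 u⁻¹.1 u.mul_inv u.inv_mul
  set A : Matrix (Fin n) (Fin n) (MonoidAlgebra ℤ G) := u.1 with hAu
  let E : Finset G := {1} ∪ Finset.univ.biUnion fun i : Fin n => Finset.univ.biUnion fun j : Fin n =>
    (A i j).coeff.support
  have hE1 : (1 : G) ∈ E := Finset.mem_union_left _ (Finset.mem_singleton_self _)
  have hE : ∀ i j g, (A i j).coeff g ≠ 0 → g ∈ E := fun i j g hg =>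
    Finset.mem_union_right _ (Finset.mem_biUnion.mpr ⟨i, Finset.mem_univ _,
      Finset.mem_biUnion.mpr ⟨j, Finset.mem_univ _, Finsupp.mem_support_iff.mpr hg⟩⟩)
  set M := 3 + 6 * K with hM
  let D : Finset G := E ^ M
  let F : Finset G := (E⁻¹ * (D⁻¹ * D)).erase 1
  refine ⟨F, Finset.notMem_erase _ _, fun Q _ π hF hposQ hgenQ => ?_⟩
  have ball_mono : ∀ k, E ^ k ⊆ E ^ (k + 1) := fun k =>
    Finset.pow_subset_pow_right hE1 (Nat.le_succ k)
  have hF' : ∀ x ∈ E, ∀ g ∈ D, ∀ h ∈ D, π (x⁻¹ * (g⁻¹ * h)) = 1 → x⁻¹ * (g⁻¹ * h) = 1 := by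
    intro x hx g hg h hh h1
    by_contra h2
    refine hF _ (Finset.mem_erase.mpr ⟨h2, ?_⟩) h1
    exact Finset.mul_mem_mul (Finset.inv_mem_inv hx)
      (Finset.mul_mem_mul (Finset.inv_mem_inv hg) hh)
  -- the two lattices
  obtain ⟨B, hB1, hB2, hB3, hB4, hB5⟩ := t_FORM G n A hA'
  have hAQ : ∀ i j, bar ((A.map (rh π)) i j) = (A.map (rh π)) j i := by
    intro i j
    rw [Matrix.map_apply, Matrix.map_apply, bar_rh, hA']
  obtain ⟨B', hB1', hB2', hB3', hB4', hB5'⟩ := t_FORM Q n (A.map (rh π)) hAQ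
  have hB' : Pos B' := ⟨hB2', fun x hx => by rw [hB1']; exact hposQ x hx⟩
  have hsing : ∀ s t : G × Fin n, BF B (Finsupp.single s 1) (Finsupp.single t 1) =
      (A s.2 t.2).coeff (s.1⁻¹ * t.1) := by
    intro s t
    rw [BF_apply, vec_single, vec_single, one_smul, one_smul, hB5]
  have hsing' : ∀ s t : Q × Fin n, BF B' (Finsupp.single s 1) (Finsupp.single t 1) =
      (rh π (A s.2 t.2)).coeff (s.1⁻¹ * t.1) := by
    intro s t
    rw [BF_apply, vec_single, vec_single, one_smul, one_smul, hB5']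
    rfl
  let T : ℕ → Set (Q × Fin n) := fun k => {s | ∃ g ∈ E ^ k, s.1 = π g}
  let p : G × Fin n → Q × Fin n := fun s => (π s.1, s.2)
  have hgenF : AddSubgroup.closure {x | BF B' x x ≤ 2} = ⊤ := by
    rw [eq_top_iff]
    intro f _
    rw [closure_iff]
    have h1 : {x | B' x x ≤ 2} = {x | (herm (A.map (rh π)) x x).coeff 1 ≤ 2} := by
      ext x
      show B' x x ≤ 2 ↔ _
      rw [hB1']
      rfl
    rw [h1, hgenQ]
    trivial
  have hbes : ∀ (x : (Q × Fin n) →₀ ℤ) (F : Finset (Q × Fin n)),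
      ∑ s ∈ F, (x s) ^ 2 ≤ K * BF B' x x := by
    intro x F
    have h1 := hK Q π hAQ hposQ (vec x) F
    simp only [coeff_vec] at h1
    rw [BF_apply, hB1']
    exact h1
  have main' : ∀ i : Fin n, (bas ((1 : G), i) : Fin n → MonoidAlgebra ℤ G) ∈
      AddSubgroup.closure {x | B x x ≤ 2} := by
    intro i
    have h1 := supp_bound (BF_pos hB') K hbes T
      (by
        rintro k s ⟨g, hg, hs⟩
        exact ⟨g, ball_mono k hg, hs⟩)
      (by
        rintro k s t ⟨g, hg, hs⟩ hst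
        rw [hsing'] at hst
        obtain ⟨x, hx, hx2⟩ := coeff_rh_ne π hst
        refine ⟨g * x, ?_, ?_⟩
        · rw [pow_succ]
          exact Finset.mul_mem_mul hg (hE _ _ _ hx)
        · rw [map_mul, hx2, hs, mul_inv_cancel_left])
      hgenF ((1 : Q), i) ⟨1, by rw [pow_zero]; exact Finset.one_mem_one, by rw [map_one]⟩
    have h2 := t_LIFT (G × Fin n) (Q × Fin n) p (BF B) (BF B') {s | s.1 ∈ D}
      (by
        rintro ⟨g, i⟩ hg ⟨h, j⟩ hh hgh
        have e1 : π g = π h := congrArg Prod.fst hgh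
        have e2 : i = j := congrArg Prod.snd hgh
        have e3 := hF' 1 hE1 g hg h hh (by
          rw [inv_one, one_mul, map_mul, map_inv, e1, inv_mul_cancel])
        rw [inv_one, one_mul] at e3
        rw [e2, inv_mul_eq_one.mp e3])
      (by
        rintro ⟨g, i⟩ hg ⟨h, j⟩ hh
        rw [hsing, hsing']
        show (A i j).coeff (g⁻¹ * h) = (rh π (A i j)).coeff ((π g)⁻¹ * π h)
        rw [← map_inv, ← map_mul, coeff_rh_eq]
        intro x hx hxe
        have e3 := hF' x (hE _ _ _ hx) g hg h hh (by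
          rw [map_mul, map_inv, hxe, inv_mul_cancel])
        exact inv_mul_eq_one.mp e3)
      ((1 : G), i) (Finset.one_mem_pow hE1) (by
        have e1 : p ((1 : G), i) = ((1 : Q), i) := by
          show (π 1, i) = _
          rw [map_one]
        rw [e1]
        refine AddSubgroup.closure_mono ?_ h1
        rintro x ⟨hx1, hx2⟩
        refine ⟨hx1, fun t ht => ?_⟩
        obtain ⟨g, hg, hg2⟩ := hx2 t ht
        exact ⟨(g, t.2), hg, Prod.ext hg2.symm rfl⟩)
    rw [closure_iff, vec_single, one_smul] at h2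
    exact h2
  rw [eq_top_iff, ← t_SPAN G n]
  refine (AddSubgroup.closure_le _).mpr ?_
  rintro _ ⟨s, rfl⟩
  have h3 : {x | B x x ≤ 2} = {x : Fin n → MonoidAlgebra ℤ G | (herm A x x).coeff 1 ≤ 2} := by
    ext x
    show B x x ≤ 2 ↔ _
    rw [hB1]
    rfl
  rw [← h3]
  rw [bas_eq s]
  have h4 : AddSubgroup.closure {x | B x x ≤ 2} ≤
      (AddSubgroup.closure {x | B x x ≤ 2}).comap (AddMonoidHom.mk' (tr s.1) (tr_add s.1)) := by
    refine (AddSubgroup.closure_le _).mpr fun x hx => ?_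
    refine AddSubgroup.subset_closure ?_
    show B (tr s.1 x) (tr s.1 x) ≤ 2
    rw [hB3]
    exact hx
  exact h4 (main' s.2)

end Pool.Agent.J6H6.DF
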