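import Pool.Agent.J6H6.DF.Crit

set_option autoImplicit false

/-!
# The criterion depends only on the lattice
-/

namespace Pool.Agent.J6H6.DF

open Relation

section lattice

variable {V : Type} [AddCommGroup V] {B : V →+ V →+ ℤ} {V' : Type} [AddCommGroup V']
  {B' : V' →+ V' →+ ℤ}

/-- Polarization. -/
theorem polar (hB : Pos B) (hB' : Pos B') (φ : V →+ V') (h : ∀ x, B' (φ x) (φ x) = B x x) (x y : V) :
    B' (φ x) (φ y) = B x y := by
  have h1 := h (x + y)
  simp only [map_add, AddMonoidHom.add_apply] at h1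
  rw [h x, h y, hB.symm y x, hB'.symm (φ y) (φ x)] at h1
  linarith

theorem irr_map (hB : Pos B) (hB' : Pos B') (φ : V →+ V') (h : ∀ x y, B' (φ x) (φ y) = B x y)
    (hs : ∀ v, ∃ x, ∀ y, B' (v - φ x) (φ y) = 0) {x : V} (hx : Irr B x) : Irr B' (φ x) := by
  refine ⟨fun h0 => ?_, fun y z hyz hb => ?_⟩
  · have h1 := hB.pos x hx.1
    rw [← h, h0, map_zero] at h1
    simp at h1
  · obtain ⟨y1, hy1⟩ := hs y
    set w := y - φ y1 with hw
    have hy : y = φ y1 + w := by rw [hw]; abel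
    have hz : z = φ (x - y1) - w := by
      rw [map_sub, ← hyz, hy]; abel
    have hw' : ∀ u, B' (φ u) w = 0 := fun u => by rw [hB'.symm]; exact hy1 u
    have h1 : B' y z = B y1 (x - y1) - B' w w := by
      rw [hy, hz]
      simp only [map_add, map_sub (B' (φ y1)), map_sub (B' w), AddMonoidHom.add_apply]
      rw [hw' y1, hy1 (x - y1), h]
      ring
    have h2 := hB'.nonneg w
    have h3 : 0 ≤ B y1 (x - y1) := by linarith
    have h4 : y1 = 0 ∨ x - y1 = 0 := hx.2 y1 (x - y1) (by abel) h3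
    have h5 : B y1 (x - y1) = 0 := by
      rcases h4 with h4 | h4
      · rw [h4, map_zero]; rfl
      · rw [h4, map_zero]
    have h6 : w = 0 := by
      by_contra hw0
      have h7 := hB'.pos w hw0
      linarith
    rcases h4 with h4 | h4
    · left; rw [hy, h4, map_zero, h6, add_zero]
    · right; rw [hz, h4, map_zero, h6, sub_zero]

theorem compN_map (hB : Pos B) (hB' : Pos B') (φ : V →+ V') (h : ∀ x y, B' (φ x) (φ y) = B x y)
    (hs : ∀ v, ∃ x, ∀ y, B' (v - φ x) (φ y) = 0) {N : ℤ} {a x : V}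
    (hx : x ∈ CompN B N a) : φ x ∈ CompN B' N (φ a) := by
  have hx' : ReflTransGen (fun y z => z ∈ ShortN B N ∧ B y z ≠ 0) a x := hx
  induction hx' with
  | refl => exact comp_selfN _
  | @tail y z h1 h2 ih =>
    exact comp_nbN (ih h1) ⟨irr_map hB hB' φ h hs h2.1.1, by rw [h]; exact h2.1.2⟩
      (by rw [h]; exact h2.2)

theorem finite_map (hB : Pos B) (hB' : Pos B') (φ : V →+ V') (h : ∀ x y, B' (φ x) (φ y) = B x y)
    (hs : ∀ v, ∃ x, ∀ y, B' (v - φ x) (φ y) = 0) {N : ℤ}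
    (hf : ∀ a ∈ ShortN B' N, (CompN B' N a).Finite) : ∀ a ∈ ShortN B N, (CompN B N a).Finite := by
  intro a ha
  have hinj : Function.Injective φ := by
    rw [injective_iff_map_eq_zero]
    intro x hx
    by_contra hx0
    have h1 := hB.pos x hx0
    rw [← h, hx, map_zero] at h1
    simp at h1
  have h1 : φ a ∈ ShortN B' N := ⟨irr_map hB hB' φ h hs ha.1, by rw [h]; exact ha.2⟩
  refine ((hf _ h1).preimage (f := φ) hinj.injOn).subset ?_
  intro x hx
  exact compN_map hB hB' φ h hs hx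

end lattice

variable {G : Type} [Group G] {n : ℕ}

/-- Generation by vectors of bounded norm. -/
theorem gen_of_diagN
    (A : Matrix (Fin n) (Fin n) (MonoidAlgebra ℤ G)) (hA : adj A = A) (N : ℤ)
    (hd : ∀ i, (A i i).coeff 1 ≤ N) :
    AddSubgroup.closure {x : Fin n → MonoidAlgebra ℤ G | (herm A x x).coeff 1 ≤ N} = ⊤ := by
  obtain ⟨B, hB1, hB2, hB3, hB4, hB5⟩ := t_FORM G n A (fun i j => congrFun (congrFun hA j) i)
  rw [eq_top_iff, ← t_SPAN G n]
  refine AddSubgroup.closure_mono ?_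
  rintro _ ⟨s, rfl⟩
  show (herm A (bas s) (bas s)).coeff 1 ≤ N
  rw [← hB1, hB5, inv_mul_cancel]
  exact hd _

theorem exists_bound (A : Matrix (Fin n) (Fin n) (MonoidAlgebra ℤ G)) :
    ∃ N : ℤ, ∀ i, (A i i).coeff 1 ≤ N :=
  ⟨∑ i, |(A i i).coeff 1|, fun i => (le_abs_self _).trans
    (Finset.single_le_sum (f := fun i => |(A i i).coeff 1|) (fun _ _ => abs_nonneg _)
      (Finset.mem_univ i))⟩

/-- Orthogonal summands (as lattices) of extended forms are extended. -/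
theorem invariance {G' : Type} [Group G'] {n' : ℕ}
    (tf : ∀ (g : G) (k : ℕ), 1 ≤ k → g ^ k = 1 → g = 1)
    (A : Matrix (Fin n) (Fin n) (MonoidAlgebra ℤ G)) (hA : adj A = A)
    (hu : IsUnit A) (hpos : ∀ x : Fin n → MonoidAlgebra ℤ G, x ≠ 0 → 0 < (herm A x x).coeff 1)
    (tf' : ∀ (g : G') (k : ℕ), 1 ≤ k → g ^ k = 1 → g = 1)
    (A' : Matrix (Fin n') (Fin n') (MonoidAlgebra ℤ G')) (hA' : adj A' = A')
    (hu' : IsUnit A') (hpos' : ∀ x : Fin n' → MonoidAlgebra ℤ G', x ≠ 0 → 0 < (herm A' x x).coeff 1)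
    (φ : (Fin n → MonoidAlgebra ℤ G) →+ (Fin n' → MonoidAlgebra ℤ G'))
    (h : ∀ x, (herm A' (φ x) (φ x)).coeff 1 = (herm A x x).coeff 1)
    (hs : ∀ v, ∃ x, ∀ y, (herm A' (v - φ x) (φ y)).coeff 1 = 0)
    (he : ∃ (S : (Matrix (Fin n') (Fin n') (MonoidAlgebra ℤ G'))ˣ)
      (A₀ : Matrix (Fin n') (Fin n') ℤ), S.1 * A' * adj S.1 = ext A₀) :
    ∃ (S : (Matrix (Fin n) (Fin n) (MonoidAlgebra ℤ G))ˣ) (A₀ : Matrix (Fin n) (Fin n) ℤ),
      S.1 * A * adj S.1 = ext A₀ := by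
  obtain ⟨B, hB1, hB2, -, -, -⟩ := t_FORM G n A (fun i j => congrFun (congrFun hA j) i)
  obtain ⟨B', hB1', hB2', -, -, -⟩ := t_FORM G' n' A' (fun i j => congrFun (congrFun hA' j) i)
  have hB : Pos B := ⟨hB2, fun x hx => by rw [hB1]; exact hpos x hx⟩
  have hB' : Pos B' := ⟨hB2', fun x hx => by rw [hB1']; exact hpos' x hx⟩
  obtain ⟨N, hN⟩ := exists_bound A
  obtain ⟨N', hN'⟩ := exists_bound A'
  have g1 := gen_of_diagN A hA (max N N') (fun i => (hN i).trans (le_max_left _ _))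
  have g2 := gen_of_diagN A' hA' (max N N') (fun i => (hN' i).trans (le_max_right _ _))
  have h1 := (fin_comp tf' A' hA' hu' hpos' _ g2 B' hB1').mp he
  refine (fin_comp tf A hA hu hpos _ g1 B hB1).mpr ?_
  refine finite_map hB hB' φ ?_ ?_ h1
  · exact polar hB hB' φ fun x => by rw [hB1, hB1']; exact h x
  · intro v
    obtain ⟨x, hx⟩ := hs v
    exact ⟨x, fun y => by rw [hB1']; exact hx y⟩

end Pool.Agent.J6H6.DF
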