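import Pool.Agent.J6H6.DF.Quad

set_option autoImplicit false

/-!
# The criterion: components of irreducible vectors of norm at most `N`
-/

namespace Pool.Agent.J6H6.DF

open Relation

variable {V : Type} [AddCommGroup V] {B : V →+ V →+ ℤ} {N : ℤ}

/-- `x` is not the sum of two nonzero vectors `y`, `z` with `⟨y, z⟩ ≥ 0`. -/
def Irr (B : V →+ V →+ ℤ) (x : V) : Prop :=
  x ≠ 0 ∧ ∀ y z, y + z = x → 0 ≤ B y z → y = 0 ∨ z = 0

theorem Irr.indec {x : V} (hx : Irr B x) : Indec B x :=
  ⟨hx.1, fun y z h h0 => hx.2 y z h h0.ge⟩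

/-- The irreducible vectors of norm at most `N`. -/
def ShortN (B : V →+ V →+ ℤ) (N : ℤ) : Set V := {x | Irr B x ∧ B x x ≤ N}

/-- The component of `a`. -/
def CompN (B : V →+ V →+ ℤ) (N : ℤ) (a : V) : Set V :=
  {x | ReflTransGen (fun y z => z ∈ ShortN B N ∧ B y z ≠ 0) a x}

/-- Vectors of norm at most `N` are sums of irreducible vectors of norm at most `N`. -/
theorem shortN_gen (hB : Pos B) (k : ℕ) : ∀ x : V, B x x ≤ k → B x x ≤ N →
    x ∈ AddSubgroup.closure (ShortN B N) := by
  induction k with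
  | zero =>
    intro x hx _
    by_cases h0 : x = 0
    · rw [h0]; exact zero_mem _
    · have h1 := hB.pos x h0
      push_cast at hx
      omega
  | succ k ih =>
    intro x hx hN
    by_cases h0 : x = 0
    · rw [h0]; exact zero_mem _
    by_cases h1 : Irr B x
    · exact AddSubgroup.subset_closure ⟨h1, hN⟩
    · have h2 : ∃ y z, y + z = x ∧ 0 ≤ B y z ∧ y ≠ 0 ∧ z ≠ 0 := by
        by_contra hcon
        refine h1 ⟨h0, fun y z hyz h => ?_⟩
        by_contra h3
        push Not at h3
        exact hcon ⟨y, z, hyz, h, h3.1, h3.2⟩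
      obtain ⟨y, z, hyz, h, hy, hz⟩ := h2
      have h3 : B (y + z) (y + z) = B y y + B z z + 2 * B y z := by
        simp only [map_add, AddMonoidHom.add_apply]
        rw [hB.symm z y]
        ring
      rw [hyz] at h3
      have h4 := hB.pos y hy
      have h5 := hB.pos z hz
      push_cast at hx
      rw [← hyz]
      exact add_mem (ih y (by omega) (by omega)) (ih z (by omega) (by omega))

section comp

theorem comp_selfN (a : V) : a ∈ CompN B N a := ReflTransGen.refl

theorem comp_shortN {a x : V} (ha : a ∈ ShortN B N) (hx : x ∈ CompN B N a) : x ∈ ShortN B N := by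
  have hx' : ReflTransGen (fun y z => z ∈ ShortN B N ∧ B y z ≠ 0) a x := hx
  induction hx' with
  | refl => exact ha
  | tail _ h _ => exact h.1

theorem comp_transN {a x y : V} (hx : x ∈ CompN B N a) (hy : y ∈ CompN B N x) : y ∈ CompN B N a :=
  ReflTransGen.trans hx hy

theorem comp_symmN (hB : Pos B) {a x : V} (ha : a ∈ ShortN B N) (hx : x ∈ CompN B N a) :
    a ∈ CompN B N x := by
  have hx' : ReflTransGen (fun y z => z ∈ ShortN B N ∧ B y z ≠ 0) a x := hx
  induction hx' with
  | refl => exact comp_selfN _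
  | @tail b c h1 h2 ih =>
    have hb : b ∈ ShortN B N := comp_shortN ha h1
    have h3 : b ∈ CompN B N c := ReflTransGen.single ⟨hb, by rw [hB.symm]; exact h2.2⟩
    exact comp_transN h3 (ih h1)

theorem comp_nbN {a x y : V} (hx : x ∈ CompN B N a) (hy : y ∈ ShortN B N) (h : B x y ≠ 0) :
    y ∈ CompN B N a := ReflTransGen.tail hx ⟨hy, h⟩

end comp

section act

variable {G : Type} [Group G] {act : G → V →+ V}

theorem Act.shortN (hA : Act B act) (g : G) {x : V} (hx : x ∈ ShortN B N) : act g x ∈ ShortN B N := by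
  refine ⟨⟨fun h => hx.1.1 ?_, fun y z hyz h => ?_⟩, by rw [hA.inv]; exact hx.2⟩
  · rw [← hA.inv_act g x, h, map_zero]
  · have h1 : act g⁻¹ y + act g⁻¹ z = x := by rw [← map_add, hyz, hA.inv_act]
    rcases hx.1.2 _ _ h1 (by rw [hA.inv]; exact h) with h2 | h2
    · left; rw [← hA.act_inv g y, h2, map_zero]
    · right; rw [← hA.act_inv g z, h2, map_zero]

theorem Act.compN (hA : Act B act) (g : G) {a x : V} (hx : x ∈ CompN B N a) :
    act g x ∈ CompN B N (act g a) := by
  have hx' : ReflTransGen (fun y z => z ∈ ShortN B N ∧ B y z ≠ 0) a x := hx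
  induction hx' with
  | refl => exact comp_selfN _
  | @tail b c h1 h2 ih => exact comp_nbN (ih h1) (hA.shortN g h2.1) (by rw [hA.inv]; exact h2.2)

variable (hB : Pos B) (hA : Act B act) (tf : ∀ (g : G) (k : ℕ), 1 ≤ k → g ^ k = 1 → g = 1)
  (hfin : ∀ a ∈ ShortN B N, (CompN B N a).Finite)

include hB hA tf hfin in
/-- The action on the components is free. -/
theorem freeN {a : V} (ha : a ∈ ShortN B N) {g : G} (hg : act g a ∈ CompN B N a) : g = 1 := by
  have h1 : ∀ k : ℕ, act (g ^ k) a ∈ CompN B N a := by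
    intro k
    induction k with
    | zero => rw [pow_zero, hA.one]; exact comp_selfN _
    | succ k ih =>
      rw [pow_succ, hA.mul]
      exact comp_transN ih (hA.compN (g ^ k) hg)
  have hf : Finite (CompN B N a) := (hfin a ha).to_subtype
  obtain ⟨i, j, hij, he⟩ := Finite.exists_ne_map_eq_of_infinite
    (fun k : ℕ => (⟨act (g ^ k) a, h1 k⟩ : CompN B N a))
  have he' : act (g ^ i) a = act (g ^ j) a := congrArg Subtype.val he
  have key : ∃ k, 1 ≤ k ∧ act (g ^ k) a = a := by
    rcases lt_or_gt_of_ne hij with h | h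
    · obtain ⟨k, rfl⟩ := Nat.exists_eq_add_of_lt h
      refine ⟨k + 1, by omega, ?_⟩
      rw [show i + k + 1 = i + (k + 1) by ring, pow_add, hA.mul] at he'
      have h2 := congrArg (act (g ^ i)⁻¹) he'
      rw [hA.inv_act, hA.inv_act] at h2
      exact h2.symm
    · obtain ⟨k, rfl⟩ := Nat.exists_eq_add_of_lt h
      refine ⟨k + 1, by omega, ?_⟩
      rw [show j + k + 1 = j + (k + 1) by ring, pow_add, hA.mul] at he'
      have h2 := congrArg (act (g ^ j)⁻¹) he'
      rw [hA.inv_act, hA.inv_act] at h2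
      exact h2
  obtain ⟨k, hk, hka⟩ := key
  have h3 : ∀ m : ℕ, act ((g ^ k) ^ m) a = a := by
    intro m
    induction m with
    | zero => rw [pow_zero, hA.one]
    | succ m ih => rw [pow_succ, hA.mul, hka, ih]
  have ha0 : B a a ≠ 0 := (hB.pos a ha.1.1).ne'
  have hf2 : Finite {h : G | B a (act h a) ≠ 0} := (hA.fin a a).to_subtype
  obtain ⟨p, q, hpq, he2⟩ := Finite.exists_ne_map_eq_of_infinite
    (fun m : ℕ => (⟨(g ^ k) ^ m, by
      show B a (act ((g ^ k) ^ m) a) ≠ 0
      rw [h3]; exact ha0⟩ : {h : G | B a (act h a) ≠ 0}))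
  have he3 : (g ^ k) ^ p = (g ^ k) ^ q := congrArg Subtype.val he2
  rcases lt_or_gt_of_ne hpq with h | h
  · obtain ⟨r, rfl⟩ := Nat.exists_eq_add_of_lt h
    rw [show p + r + 1 = p + (r + 1) by ring, pow_add] at he3
    have h4 : (g ^ k) ^ (r + 1) = 1 := by
      have := mul_left_cancel (he3.symm.trans (mul_one _).symm)
      exact this
    rw [← pow_mul] at h4
    exact tf g _ (Nat.one_le_iff_ne_zero.mpr (by positivity)) h4
  · obtain ⟨r, rfl⟩ := Nat.exists_eq_add_of_lt h
    rw [show q + r + 1 = q + (r + 1) by ring, pow_add] at he3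
    have h4 : (g ^ k) ^ (r + 1) = 1 := by
      have := mul_left_cancel (he3.trans (mul_one _).symm)
      exact this
    rw [← pow_mul] at h4
    exact tf g _ (Nat.one_le_iff_ne_zero.mpr (by positivity)) h4

include hB hA tf hfin in
/-- The lattice is the orthogonal sum of the translates of a finitely generated group. -/
theorem exists_LN (gen : AddSubgroup.closure (ShortN B N) = ⊤) (F : Finset V)
    (hF : AddSubgroup.closure {z | ∃ (g : G) (x : V), x ∈ F ∧ z = act g x} = ⊤) :
    ∃ L : AddSubgroup V, L.FG ∧ (∀ g : G, g ≠ 1 → ∀ x ∈ L, ∀ y ∈ L, B x (act g y) = 0) ∧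
      AddSubgroup.closure {z | ∃ (g : G) (x : V), x ∈ L ∧ z = act g x} = ⊤ := by
  classical
  -- orbits of components
  let r : Setoid (ShortN B N) :=
    { r := fun a b => ∃ g, act g b.1 ∈ CompN B N a.1
      iseqv :=
        { refl := fun a => ⟨1, by rw [hA.one]; exact comp_selfN _⟩
          symm := by
            rintro a b ⟨g, hg⟩
            refine ⟨g⁻¹, ?_⟩
            have h1 := hA.compN g⁻¹ (comp_symmN hB a.2 hg)
            rw [hA.inv_act] at h1
            exact h1
          trans := by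
            rintro a b c ⟨g, hg⟩ ⟨h, hh⟩
            refine ⟨g * h, ?_⟩
            rw [hA.mul]
            exact comp_transN hg (hA.compN g hh) } }
  let rp : Quotient r → V := fun q => q.out.1
  have rps : ∀ q, rp q ∈ ShortN B N := fun q => q.out.2
  let L : Set (Quotient r) → AddSubgroup V := fun P =>
    AddSubgroup.closure {y | ∃ q ∈ P, y ∈ CompN B N (rp q)}
  let W : Set (Quotient r) → AddSubgroup V := fun P =>
    AddSubgroup.closure {z | ∃ (g : G) (x : V), x ∈ L P ∧ z = act g x}
  have Lmono : ∀ P P', P ⊆ P' → L P ≤ L P' := fun P P' h =>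
    AddSubgroup.closure_mono fun y hy => by
      obtain ⟨q, h1, h2⟩ := hy
      exact ⟨q, h h1, h2⟩
  have Wmono : ∀ P P', P ⊆ P' → W P ≤ W P' := fun P P' h =>
    AddSubgroup.closure_mono fun y hy => by
      obtain ⟨g, x, h1, h2⟩ := hy
      exact ⟨g, x, Lmono P P' h h1, h2⟩
  have Wact : ∀ P (g : G) x, x ∈ W P → act g x ∈ W P := by
    intro P g x hx
    have h1 : W P ≤ (W P).comap (act g) := by
      refine (AddSubgroup.closure_le _).mpr ?_
      rintro _ ⟨h, y, hy, rfl⟩
      show act g (act h y) ∈ W P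
      rw [← hA.mul]
      exact AddSubgroup.subset_closure ⟨g * h, y, hy, rfl⟩
    exact h1 hx
  have each : ∀ x : V, ∃ P : Set (Quotient r), P.Finite ∧ x ∈ W P := by
    intro x
    have hx : x ∈ AddSubgroup.closure (ShortN B N) := by rw [gen]; trivial
    induction hx using AddSubgroup.closure_induction with
    | mem x hx =>
      obtain ⟨g, hg⟩ : ∃ g, act g x ∈ CompN B N (rp ⟦⟨x, hx⟩⟧) :=
        Quotient.exact (Quotient.out_eq (⟦⟨x, hx⟩⟧ : Quotient r))
      refine ⟨{⟦⟨x, hx⟩⟧}, Set.finite_singleton _, AddSubgroup.subset_closure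
        ⟨g⁻¹, act g x, AddSubgroup.subset_closure ⟨_, rfl, hg⟩, ?_⟩⟩
      rw [hA.inv_act]
    | zero => exact ⟨∅, Set.finite_empty, zero_mem _⟩
    | add x y _ _ h1 h2 =>
      obtain ⟨P, hP, hx⟩ := h1
      obtain ⟨P', hP', hy⟩ := h2
      exact ⟨P ∪ P', hP.union hP', add_mem (Wmono _ _ Set.subset_union_left hx)
        (Wmono _ _ Set.subset_union_right hy)⟩
    | neg x _ h1 =>
      obtain ⟨P, hP, hx⟩ := h1
      exact ⟨P, hP, neg_mem hx⟩
  choose P hPf hP using each
  set P₀ : Set (Quotient r) := ⋃ x ∈ F, P x with hP₀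
  have hP₀f : P₀.Finite := Set.Finite.biUnion F.finite_toSet fun x _ => hPf x
  have htop : W P₀ = ⊤ := by
    rw [eq_top_iff, ← hF]
    refine (AddSubgroup.closure_le _).mpr ?_
    rintro _ ⟨g, x, hx, rfl⟩
    exact Wact _ g x (Wmono _ _ (Set.subset_biUnion_of_mem (u := fun x => P x) hx) (hP x))
  refine ⟨L P₀, ?_, ?_, htop⟩
  · rw [AddSubgroup.fg_iff]
    refine ⟨{y | ∃ q ∈ P₀, y ∈ CompN B N (rp q)}, rfl, ?_⟩
    have h1 : {y | ∃ q ∈ P₀, y ∈ CompN B N (rp q)} = ⋃ q ∈ P₀, CompN B N (rp q) := by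
      ext y
      simp only [Set.mem_setOf_eq, Set.mem_iUnion, exists_prop]
    rw [h1]
    exact hP₀f.biUnion fun q _ => hfin _ (rps q)
  · intro g hg x hx y hy
    have base : ∀ x ∈ {y | ∃ q ∈ P₀, y ∈ CompN B N (rp q)}, ∀ y ∈ {y | ∃ q ∈ P₀, y ∈ CompN B N (rp q)},
        B x (act g y) = 0 := by
      rintro x ⟨q, -, hx⟩ y ⟨q', -, hy⟩
      by_contra hne
      have hys : y ∈ ShortN B N := comp_shortN (rps q') hy
      have h1 : act g y ∈ CompN B N (rp q) := comp_nbN hx (hA.shortN g hys) hne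
      have h2 : act g (rp q') ∈ CompN B N (act g y) := hA.compN g (comp_symmN hB (rps q') hy)
      have h3 : act g (rp q') ∈ CompN B N (rp q) := comp_transN h1 h2
      have h4 : q = q' := by
        have h5 : (⟦q.out⟧ : Quotient r) = ⟦q'.out⟧ := Quotient.sound ⟨g, h3⟩
        rw [Quotient.out_eq, Quotient.out_eq] at h5
        exact h5
      subst h4
      exact hg (freeN hB hA tf hfin hys (comp_transN (comp_symmN hB (rps q) hy) h1))
    have h1 : ∀ y ∈ {y | ∃ q ∈ P₀, y ∈ CompN B N (rp q)}, ∀ x ∈ L P₀, B x (act g y) = 0 := by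
      intro y hy x hx
      have h2 : L P₀ ≤ ((B.flip (act g y)).ker) :=
        (AddSubgroup.closure_le _).mpr fun x hx => base x hx y hy
      exact h2 hx
    have h3 : L P₀ ≤ ((B x).comp (act g)).ker :=
      (AddSubgroup.closure_le _).mpr fun y hy => h1 y hy x hx
    exact h3 hy

end act

end Pool.Agent.J6H6.DF
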