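import Mathlib
import Pool.Agent.J6H6.DF.Stm

set_option autoImplicit false

/-!
# Module DF-3: finitely supported functionals are represented
-/

namespace Pool.Agent.J6H6.DF

theorem t_REP : S_REP := by
  classical
  intro G _ n A hA f hf
  obtain ⟨U, rfl⟩ := hA
  have hfin : ∀ j : Fin n, (Function.support (fun h : G => f (h⁻¹, j))).Finite := by
    intro j
    have hinj : Function.Injective (fun h : G => (h⁻¹, j)) := by
      intro a b hab
      exact inv_injective (Prod.mk.inj hab).1
    exact hf.preimage hinj.injOn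
  set c : Fin n → MonoidAlgebra ℤ G := fun j =>
    MonoidAlgebra.ofCoeff (Finsupp.ofSupportFinite (fun h : G => f (h⁻¹, j)) (hfin j)) with hc
  have hcoeff : ∀ (j : Fin n) (h : G), (c j).coeff h = f (h⁻¹, j) := fun j h => rfl
  refine ⟨fun k => bar (((U⁻¹ : (Matrix (Fin n) (Fin n) (MonoidAlgebra ℤ G))ˣ).val.mulVec c) k), ?_⟩
  rintro ⟨g, j⟩
  have h1 : herm U.val (bas (g, j))
      (fun k => bar (((U⁻¹ : (Matrix (Fin n) (Fin n) (MonoidAlgebra ℤ G))ˣ).val.mulVec c) k)) =
      MonoidAlgebra.single g 1 * c j := by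
    unfold herm
    rw [Finset.sum_eq_single j]
    · have h2 : ∀ k : Fin n, bas (g, j) j * U.val j k *
          bar (bar (((U⁻¹ : (Matrix (Fin n) (Fin n) (MonoidAlgebra ℤ G))ˣ).val.mulVec c) k)) =
          MonoidAlgebra.single g 1 *
          (U.val j k * ((U⁻¹ : (Matrix (Fin n) (Fin n) (MonoidAlgebra ℤ G))ˣ).val.mulVec c) k) := by
        intro k
        rw [bar_bar, mul_assoc]
        simp [bas]
      rw [Finset.sum_congr rfl (fun k _ => h2 k), ← Finset.mul_sum]
      congr 1
      have h3 : (U.val.mulVec ((U⁻¹ : (Matrix (Fin n) (Fin n) (MonoidAlgebra ℤ G))ˣ).val.mulVec c)) j =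
          c j := by
        rw [Matrix.mulVec_mulVec, Units.mul_inv, Matrix.one_mulVec]
      exact h3
    · intro i _ hi
      apply Finset.sum_eq_zero
      intro k _
      have : bas (g, j) i = (0 : MonoidAlgebra ℤ G) := by
        simp [bas, hi]
      rw [this, zero_mul, zero_mul]
    · intro h
      exact absurd (Finset.mem_univ j) h
  rw [h1]
  have h4 : (MonoidAlgebra.single g 1 * c j).coeff 1 = 1 * (c j).coeff (g⁻¹ * 1) :=
    MonoidAlgebra.coeff_single_mul_apply _ _ _ _
  rw [h4, hcoeff]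
  simp

end Pool.Agent.J6H6.DF
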