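import Pool.Agent.J6H6.DF.Stm

set_option autoImplicit false

/-!
# DF-ROW
-/

namespace Pool.Agent.J6H6.DF

theorem t_ROW : S_ROW := by
  classical
  intro G _ n A
  let S : Finset (G × Fin n) :=
    (Finset.univ.biUnion fun i : Fin n => Finset.univ.biUnion fun j : Fin n =>
      (A i j).coeff.support) ×ˢ Finset.univ
  have hS : ∀ (i : Fin n) (u : G × Fin n), u ∉ S → |(A i u.2).coeff u.1| = 0 := by
    intro i u hu
    rw [abs_eq_zero]
    by_contra h
    apply hu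
    rw [Finset.mem_product]
    refine ⟨?_, Finset.mem_univ _⟩
    rw [Finset.mem_biUnion]
    refine ⟨i, Finset.mem_univ _, ?_⟩
    rw [Finset.mem_biUnion]
    exact ⟨u.2, Finset.mem_univ _, Finsupp.mem_support_iff.2 h⟩
  refine ⟨∑ i, ∑ u ∈ S, |(A i u.2).coeff u.1|, fun s F => ?_⟩
  have hinj : Function.Injective (fun t : G × Fin n => ((s.1⁻¹ * t.1, t.2) : G × Fin n)) := by
    rintro ⟨a, i⟩ ⟨b, j⟩ h
    simp only [Prod.mk.injEq, mul_right_inj] at h
    exact Prod.ext h.1 h.2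
  have h1 : ∑ t ∈ F, |(A s.2 t.2).coeff (s.1⁻¹ * t.1)| =
      ∑ u ∈ F.image (fun t : G × Fin n => ((s.1⁻¹ * t.1, t.2) : G × Fin n)),
        |(A s.2 u.2).coeff u.1| := by
    rw [Finset.sum_image (fun a _ b _ h => hinj h)]
  rw [h1]
  have h2 : ∑ u ∈ F.image (fun t : G × Fin n => ((s.1⁻¹ * t.1, t.2) : G × Fin n)),
      |(A s.2 u.2).coeff u.1| ≤ ∑ u ∈ S, |(A s.2 u.2).coeff u.1| := by
    rw [← Finset.sum_filter_add_sum_filter_not _ (fun u => u ∈ S)]
    have h3 : ∑ u ∈ (F.image (fun t : G × Fin n => ((s.1⁻¹ * t.1, t.2) : G × Fin n))).filter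
        (fun u => ¬ u ∈ S), |(A s.2 u.2).coeff u.1| = 0 :=
      Finset.sum_eq_zero fun u hu => hS _ u (Finset.mem_filter.1 hu).2
    rw [h3, add_zero]
    exact Finset.sum_le_sum_of_subset_of_nonneg (fun u hu => (Finset.mem_filter.1 hu).2)
      fun _ _ _ => abs_nonneg _
  refine h2.trans ?_
  exact Finset.single_le_sum (f := fun i => ∑ u ∈ S, |(A i u.2).coeff u.1|)
    (fun i _ => Finset.sum_nonneg fun _ _ => abs_nonneg _) (Finset.mem_univ s.2)

end Pool.Agent.J6H6.DF
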