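import Pool.Agent.J6H6.DF.Lat
import Pool.Agent.J6H6.DF.PFORM
import Pool.Agent.J6H6.DF.PROW
import Pool.Agent.J6H6.DF.PREP
import Pool.Agent.J6H6.DF.PCOMP

set_option autoImplicit false

/-!
# The assembly
-/

namespace Pool.Agent.J6H6.DF

variable {G : Type} [Group G] {n : ℕ}

theorem tr_add (g : G) (x y : Fin n → MonoidAlgebra ℤ G) : tr g (x + y) = tr g x + tr g y := by
  funext i
  show MonoidAlgebra.single g 1 * (x i + y i) = _
  rw [mul_add]
  rfl

theorem tr_one (x : Fin n → MonoidAlgebra ℤ G) : tr 1 x = x := by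
  funext i
  show MonoidAlgebra.single 1 1 * x i = x i
  rw [← MonoidAlgebra.one_def, one_mul]

theorem tr_mul (g h : G) (x : Fin n → MonoidAlgebra ℤ G) : tr (g * h) x = tr g (tr h x) := by
  funext i
  show MonoidAlgebra.single (g * h) 1 * x i =
    MonoidAlgebra.single g 1 * (MonoidAlgebra.single h 1 * x i)
  rw [← mul_assoc, MonoidAlgebra.single_mul_single, one_mul]

theorem bas_eq (s : G × Fin n) : (bas s : Fin n → MonoidAlgebra ℤ G) = tr s.1 (bas (1, s.2)) := by
  classical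
  funext i
  show (Pi.single s.2 (MonoidAlgebra.single s.1 1) : Fin n → MonoidAlgebra ℤ G) i =
    MonoidAlgebra.single s.1 1 *
      (Pi.single s.2 (MonoidAlgebra.single 1 1) : Fin n → MonoidAlgebra ℤ G) i
  by_cases h : i = s.2
  · subst h
    rw [Pi.single_eq_same, Pi.single_eq_same, MonoidAlgebra.single_mul_single, mul_one, one_mul]
  · rw [Pi.single_eq_of_ne h, Pi.single_eq_of_ne h, mul_zero]

/-- The main theorem. -/
theorem main (hspan : S_SPAN) (hbasis : S_BASIS)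
    (tf : ∀ (g : G) (k : ℕ), 1 ≤ k → g ^ k = 1 → g = 1)
    (A : Matrix (Fin n) (Fin n) (MonoidAlgebra ℤ G)) (hA : ∀ i j, bar (A i j) = A j i)
    (hu : IsUnit A) (hpos : ∀ x : Fin n → MonoidAlgebra ℤ G, x ≠ 0 → 0 < (herm A x x).coeff 1)
    (hgen : AddSubgroup.closure {x : Fin n → MonoidAlgebra ℤ G | (herm A x x).coeff 1 ≤ 2} = ⊤) :
    ∃ (m : ℕ) (f : (Fin m → MonoidAlgebra ℤ G) ≃ₗ[MonoidAlgebra ℤ G] (Fin n → MonoidAlgebra ℤ G))
      (A₀ : Matrix (Fin m) (Fin m) ℤ), ∀ i j,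
        herm A (f (Pi.single i 1)) (f (Pi.single j 1)) = MonoidAlgebra.single 1 (A₀ i j) := by
  classical
  obtain ⟨B, hB1, hB2, hB3, hB4, hB5⟩ := t_FORM G n A hA
  have hB : Pos B := ⟨hB2, fun x hx => by rw [hB1]; exact hpos x hx⟩
  obtain ⟨K, hK⟩ := t_ROW G n A
  have span := hspan G n
  have row : ∀ (s : G × Fin n) (F : Finset (G × Fin n)), ∑ t ∈ F, |B (bas s) (bas t)| ≤ K := by
    intro s F
    simp_rw [hB5]
    exact hK s F
  have rep : ∀ f : G × Fin n → ℤ, {s | f s ≠ 0}.Finite → ∃ y, ∀ s, B (bas s) y = f s := by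
    intro f hf
    obtain ⟨y, hy⟩ := t_REP G n A hu f hf
    exact ⟨y, fun s => by rw [hB1]; exact hy s⟩
  have nb : ∀ a, {x | x ∈ Short B ∧ B a x ≠ 0}.Finite := by
    intro a
    refine (finite_nb hB bas span row rep a 2).subset ?_
    rintro x ⟨⟨h1, h2⟩, h3⟩
    exact ⟨h1, h2, h3⟩
  have hcomp := t_COMP _ B hB nb
  let act : G → (Fin n → MonoidAlgebra ℤ G) →+ (Fin n → MonoidAlgebra ℤ G) :=
    fun g => AddMonoidHom.mk' (tr g) (tr_add g)
  have hact : Act B act := by
    refine ⟨tr_one, tr_mul, hB3, fun x y => ?_⟩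
    refine ((herm A x y).coeff.support.finite_toSet).subset ?_
    intro g hg
    have hg' : B x (tr g y) ≠ 0 := hg
    rw [hB4] at hg'
    exact Finset.mem_coe.mpr (Finsupp.mem_support_iff.mpr hg')
  have gen : AddSubgroup.closure (Short B) = ⊤ := by
    rw [eq_top_iff, ← hgen]
    refine (AddSubgroup.closure_le _).mpr fun x hx => short_gen hB ?_
    rw [hB1]
    exact hx
  obtain ⟨L, h1, h2, h3⟩ := exists_L hB hact tf hcomp gen
    (Finset.univ.image fun i : Fin n => (bas ((1 : G), i) : Fin n → MonoidAlgebra ℤ G)) (by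
      rw [eq_top_iff, ← span]
      refine AddSubgroup.closure_mono ?_
      rintro _ ⟨s, rfl⟩
      exact ⟨s.1, bas (1, s.2), Finset.mem_image.mpr ⟨s.2, Finset.mem_univ _, rfl⟩, bas_eq s⟩)
  exact hbasis G n A B hB hB3 hB4 L h1 h2 h3

/-- Evenness. -/
theorem even_of_diag (hspan : S_SPAN)
    (A : Matrix (Fin n) (Fin n) (MonoidAlgebra ℤ G)) (hA : ∀ i j, bar (A i j) = A j i)
    (hev : ∀ i, Even ((A i i).coeff 1)) (x : Fin n → MonoidAlgebra ℤ G) :
    Even ((herm A x x).coeff 1) := by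
  obtain ⟨B, hB1, hB2, hB3, hB4, hB5⟩ := t_FORM G n A hA
  rw [← hB1]
  have hx : x ∈ AddSubgroup.closure (Set.range (bas : G × Fin n → Fin n → MonoidAlgebra ℤ G)) := by
    rw [hspan G n]; trivial
  induction hx using AddSubgroup.closure_induction with
  | mem x hx =>
    obtain ⟨s, rfl⟩ := hx
    rw [hB5, inv_mul_cancel]
    exact hev _
  | zero => rw [map_zero]; simp
  | add x y _ _ h1 h2 =>
    have h3 : B (x + y) (x + y) = B x x + B y y + 2 * B x y := by
      simp only [map_add, AddMonoidHom.add_apply]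
      rw [hB2 y x]
      ring
    rw [h3]
    exact (h1.add h2).add (even_two_mul _)
  | neg x _ h1 =>
    have h3 : B (-x) (-x) = B x x := by
      simp only [map_neg, AddMonoidHom.neg_apply, neg_neg]
    rw [h3]
    exact h1

/-- Generation by short vectors follows from short diagonal entries. -/
theorem gen_of_diag (hspan : S_SPAN)
    (A : Matrix (Fin n) (Fin n) (MonoidAlgebra ℤ G)) (hA : ∀ i j, bar (A i j) = A j i)
    (hd : ∀ i, (A i i).coeff 1 ≤ 2) :
    AddSubgroup.closure {x : Fin n → MonoidAlgebra ℤ G | (herm A x x).coeff 1 ≤ 2} = ⊤ := by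
  obtain ⟨B, hB1, hB2, hB3, hB4, hB5⟩ := t_FORM G n A hA
  rw [eq_top_iff, ← hspan G n]
  refine AddSubgroup.closure_mono ?_
  rintro _ ⟨s, rfl⟩
  show (herm A (bas s) (bas s)).coeff 1 ≤ 2
  rw [← hB1, hB5, inv_mul_cancel]
  exact hd _

end Pool.Agent.J6H6.DF
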