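import Pool.Agent.J6H6.DF.Stm

/-! # Project DF (helper6), module BASIS (helper42) -/

set_option autoImplicit false

namespace Pool.Agent.J6H6.DF

section basis

variable {G : Type} [Group G] {n : ℕ}

lemma tr_eq_smul (g : G) (x : Fin n → MonoidAlgebra ℤ G) :
    tr g x = (MonoidAlgebra.single g (1 : ℤ) : MonoidAlgebra ℤ G) • x := rfl

lemma single_smul_eq (h : G) (c : ℤ) (x : Fin n → MonoidAlgebra ℤ G) :
    (MonoidAlgebra.single h c : MonoidAlgebra ℤ G) • x = tr h (c • x) := by
  funext i
  show MonoidAlgebra.single h c * x i = MonoidAlgebra.single h 1 * (c • x i)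
  rw [mul_smul_comm, ← smul_mul_assoc]
  congr 1
  ext g
  rw [MonoidAlgebra.coeff_smul_apply, MonoidAlgebra.coeff_single, MonoidAlgebra.coeff_single]
  rw [← Finsupp.smul_apply, Finsupp.smul_single]
  simp

lemma tr_tr (g h : G) (x : Fin n → MonoidAlgebra ℤ G) : tr g (tr h x) = tr (g * h) x := by
  funext i
  show MonoidAlgebra.single g (1 : ℤ) * (MonoidAlgebra.single h 1 * x i)
    = MonoidAlgebra.single (g * h) 1 * x i
  rw [← mul_assoc, MonoidAlgebra.single_mul_single, one_mul]

lemma tr_one (x : Fin n → MonoidAlgebra ℤ G) : tr (1 : G) x = x := by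
  funext i
  show MonoidAlgebra.single (1 : G) (1 : ℤ) * x i = x i
  rw [← MonoidAlgebra.one_def, one_mul]

omit [Group G] in
/-- an element of the group ring is a sum over a finite set which contains its support -/
lemma eq_sum_single (T : Finset G) (r : MonoidAlgebra ℤ G) (hT : r.coeff.support ⊆ T) :
    r = ∑ h ∈ T, MonoidAlgebra.single h (r.coeff h) := by
  conv_lhs => rw [← MonoidAlgebra.sum_coeff_single r]
  exact Finsupp.sum_of_support_subset _ hT _ (fun h _ => by simp)

end basis

/-- **BASIS** -/
theorem t_BASIS : S_BASIS := by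
  classical
  intro G _ n A B hB hinv hherm L hL horth hgen
  -- a basis of `L`
  set L' : Submodule ℤ (Fin n → MonoidAlgebra ℤ G) := AddSubgroup.toIntSubmodule L with hL'
  have hfg : L'.FG := by
    rw [Submodule.fg_iff_addSubgroup_fg]
    simpa [hL'] using hL
  have : Module.Finite ℤ L' := Module.Finite.iff_fg.mpr hfg
  have : Module.IsTorsionFree ℤ (Fin n → MonoidAlgebra ℤ G) := by infer_instance
  have : Module.IsTorsionFree ℤ L' := by infer_instance
  have : Module.Free ℤ L' := by infer_instance
  set m := Module.finrank ℤ L' with hm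
  set b : Module.Basis (Fin m) ℤ L' := Module.finBasis ℤ L' with hb
  set ℓ : Fin m → (Fin n → MonoidAlgebra ℤ G) := fun k => (b k : Fin n → MonoidAlgebra ℤ G) with hℓ
  have hℓL : ∀ k, ℓ k ∈ L := fun k => (b k).2
  -- the linear map
  set f : (Fin m → MonoidAlgebra ℤ G) →ₗ[MonoidAlgebra ℤ G] (Fin n → MonoidAlgebra ℤ G) :=
    Fintype.linearCombination (MonoidAlgebra ℤ G) ℓ with hf
  have hfa : ∀ r, f r = ∑ k, r k • ℓ k := fun r => by
    rw [hf, Fintype.linearCombination_apply]
  have hfs : ∀ k, f (Pi.single k 1) = ℓ k := fun k => by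
    rw [hf, Fintype.linearCombination_apply_single, one_smul]
  -- surjective
  have hsurj : Function.Surjective f := by
    rw [← LinearMap.range_eq_top]
    have h1 : AddSubgroup.closure {z | ∃ (g : G) (x : _), x ∈ L ∧ z = tr g x}
        ≤ (LinearMap.range f).toAddSubgroup := by
      rw [AddSubgroup.closure_le]
      rintro _ ⟨g, x, hx, rfl⟩
      show tr g x ∈ LinearMap.range f
      rw [tr_eq_smul]
      refine Submodule.smul_mem _ _ ?_
      have hx' : x ∈ L' := hx
      have h2 : (∑ k, (b.repr ⟨x, hx'⟩ k) • ℓ k) = x := by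
        have h3 : ((∑ k, (b.repr ⟨x, hx'⟩ k) • b k : L') : Fin n → MonoidAlgebra ℤ G) = x :=
          congrArg (Subtype.val) (b.sum_repr ⟨x, hx'⟩)
        refine Eq.trans ?_ h3
        rw [Submodule.coe_sum]
        exact Finset.sum_congr rfl (fun k _ => (Submodule.coe_smul _ _).symm)
      rw [← h2]
      refine Submodule.sum_mem _ (fun k _ => ?_)
      refine zsmul_mem ?_ _
      exact ⟨Pi.single k 1, hfs k⟩
    rw [hgen] at h1
    rw [eq_top_iff]
    intro x _
    exact h1 (AddSubgroup.mem_top x)
  -- injective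
  have hinj : Function.Injective f := by
    rw [injective_iff_map_eq_zero]
    intro r hr
    -- a finite set which contains all supports
    set T : Finset G := Finset.univ.biUnion (fun k => (r k).coeff.support) with hT
    set v : G → (Fin n → MonoidAlgebra ℤ G) := fun h => ∑ k, (r k).coeff h • ℓ k with hv
    have hvL : ∀ h, v h ∈ L := fun h => AddSubgroup.sum_mem _ (fun k _ => zsmul_mem (hℓL k) _)
    have hsum : ∑ h ∈ T, tr h (v h) = 0 := by
      rw [← hr, hfa]
      have h1 : ∀ k, r k • ℓ k = ∑ h ∈ T, tr h ((r k).coeff h • ℓ k) := by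
        intro k
        conv_lhs => rw [eq_sum_single T (r k) (Finset.subset_biUnion_of_mem
          (fun k => (r k).coeff.support) (Finset.mem_univ k))]
        rw [Finset.sum_smul]
        exact Finset.sum_congr rfl (fun h _ => single_smul_eq h _ _)
      rw [Finset.sum_congr rfl (fun k _ => h1 k), Finset.sum_comm]
      refine Finset.sum_congr rfl (fun h _ => ?_)
      rw [hv, tr_eq_smul, Finset.smul_sum]
      rfl
    have hv0 : ∀ h, v h = 0 := by
      intro h
      by_cases hh : h ∈ T
      · have h1 : B (∑ h' ∈ T, tr h' (v h')) (tr h (v h)) = 0 := by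
          rw [hsum, map_zero, AddMonoidHom.zero_apply]
        rw [map_sum, AddMonoidHom.finsetSum_apply, Finset.sum_eq_single h] at h1
        · rw [hinv] at h1
          by_contra hne
          exact absurd h1 (ne_of_gt (hB.pos _ hne))
        · intro h' _ hne
          have h2 : tr h (v h) = tr h' (tr (h'⁻¹ * h) (v h)) := by
            rw [tr_tr, mul_inv_cancel_left]
          rw [h2, hinv]
          refine horth _ ?_ _ (hvL h') _ (hvL h)
          intro h3
          exact hne (by rw [inv_mul_eq_one] at h3; exact h3)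
        · exact fun h3 => absurd hh h3
      · rw [hv]
        refine Finset.sum_eq_zero (fun k _ => ?_)
        have h1 : (r k).coeff h = 0 := by
          by_contra hne
          exact hh (Finset.mem_biUnion.mpr ⟨k, Finset.mem_univ k, Finsupp.mem_support_iff.mpr hne⟩)
        rw [h1, zero_smul]
    funext k
    ext h
    have h1 : ∑ k, (r k).coeff h • b k = 0 := by
      apply Subtype.ext
      have := hv0 h
      simpa [hv, hℓ] using this
    have h2 := Fintype.linearIndependent_iff.mp b.linearIndependent (fun k => (r k).coeff h) h1 k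
    rw [h2]
    rfl
  refine ⟨m, LinearEquiv.ofBijective f ⟨hinj, hsurj⟩, Matrix.of (fun i j => B (ℓ i) (ℓ j)), ?_⟩
  intro i j
  show herm A (f (Pi.single i 1)) (f (Pi.single j 1)) = _
  rw [hfs, hfs]
  ext g
  rw [← hherm, MonoidAlgebra.coeff_single, Finsupp.single_apply]
  by_cases hg : 1 = g
  · rw [if_pos hg, ← hg, tr_one]
    rfl
  · rw [if_neg hg]
    exact horth g (fun h => hg h.symm) _ (hℓL i) _ (hℓL j)

end Pool.Agent.J6H6.DF
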