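import Pool.Agent.J6H6.DF.Stm

set_option autoImplicit false

/-!
# Project DF, module DF-4 (helper22): `R ^ n` is generated by `bas`
-/

namespace Pool.Agent.J6H6.DF

theorem t_SPAN : S_SPAN := by
  classical
  intro G _ n
  rw [eq_top_iff]
  intro x _
  have key : ∀ (i : Fin n) (r : MonoidAlgebra ℤ G), (Pi.single i r : Fin n → MonoidAlgebra ℤ G) ∈
      AddSubgroup.closure (Set.range (bas : G × Fin n → Fin n → MonoidAlgebra ℤ G)) := by
    intro i r
    induction r using MonoidAlgebra.induction_linear with
    | zero =>
      rw [Pi.single_zero]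
      exact AddSubgroup.zero_mem _
    | add a b ha hb =>
      rw [Pi.single_add]
      exact AddSubgroup.add_mem _ ha hb
    | single g c =>
      have h1 : (MonoidAlgebra.single g c : MonoidAlgebra ℤ G) =
          c • (MonoidAlgebra.single g 1 : MonoidAlgebra ℤ G) := by
        rw [MonoidAlgebra.smul_single, smul_eq_mul, mul_one]
      have h2 : (Pi.single i (MonoidAlgebra.single g c) : Fin n → MonoidAlgebra ℤ G) =
          c • bas (g, i) := by
        rw [h1]
        unfold bas
        exact (Pi.single_smul i c _)
      rw [h2]
      exact AddSubgroup.zsmul_mem _ (AddSubgroup.subset_closure (Set.mem_range_self (g, i))) c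
  rw [← Finset.univ_sum_single x]
  exact AddSubgroup.sum_mem _ fun i _ => key i (x i)

end Pool.Agent.J6H6.DF
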