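import Pool.Agent.J6H6.DF.Main
import Pool.Agent.J6H6.DF.PBASIS
import Pool.Agent.J6H6.DF.PSPAN

set_option autoImplicit false

/-!
# Quadratic forms, and the rank
-/

namespace Pool.Agent.J6H6.DF

variable {G : Type} [Group G] {n : ℕ}

theorem bar_neg (x : MonoidAlgebra ℤ G) : bar (-x) = - bar x := by
  have h := bar_add x (-x)
  rw [add_neg_cancel, bar_zero] at h
  exact (neg_eq_of_add_eq_zero_right h.symm).symm

theorem bar_sub (x y : MonoidAlgebra ℤ G) : bar (x - y) = bar x - bar y := by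
  rw [sub_eq_add_neg, bar_add, bar_neg, ← sub_eq_add_neg]

/-- In the absence of elements of order two `d = p - bar p` when `d + bar d = 0`. -/
theorem skew (tf : ∀ g : G, g * g = 1 → g = 1) (d : MonoidAlgebra ℤ G) (hd : d + bar d = 0) :
    ∃ p, d = p - bar p := by
  classical
  have hc : ∀ g, d.coeff g⁻¹ = - d.coeff g := by
    intro g
    have h := congrArg (fun x : MonoidAlgebra ℤ G => x.coeff g) hd
    simp only [MonoidAlgebra.coeff_add, Finsupp.add_apply, coeff_bar] at h
    rw [MonoidAlgebra.coeff_zero, Finsupp.zero_apply] at h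
    linarith
  obtain ⟨hlin⟩ : Nonempty (LinearOrder G) := ⟨linearOrderOfSTO WellOrderingRel⟩
  let p : MonoidAlgebra ℤ G :=
    ∑ g ∈ d.coeff.support.filter (fun g => g < g⁻¹), MonoidAlgebra.single g (d.coeff g)
  have hp : ∀ h, p.coeff h = if h < h⁻¹ then d.coeff h else 0 := by
    intro h
    show (∑ g ∈ d.coeff.support.filter (fun g => g < g⁻¹),
      MonoidAlgebra.single g (d.coeff g)).coeff h = _
    rw [MonoidAlgebra.coeff_sum, Finsupp.finsetSum_apply]
    have h1 : ∀ g ∈ d.coeff.support.filter (fun g => g < g⁻¹),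
        (MonoidAlgebra.single g (d.coeff g)).coeff h = if g = h then d.coeff h else 0 := by
      intro g _
      rw [MonoidAlgebra.coeff_single, Finsupp.single_apply]
      by_cases hh : g = h
      · subst hh; rfl
      · rw [if_neg hh, if_neg hh]
    rw [Finset.sum_congr rfl h1, Finset.sum_ite_eq']
    by_cases h2 : h < h⁻¹
    · rw [if_pos h2]
      by_cases h3 : d.coeff h = 0
      · rw [h3]; simp
      · rw [if_pos (Finset.mem_filter.mpr ⟨Finsupp.mem_support_iff.mpr h3, h2⟩)]
    · rw [if_neg h2, if_neg]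
      intro h3
      exact h2 (Finset.mem_filter.mp h3).2
  refine ⟨p, ?_⟩
  ext h
  rw [MonoidAlgebra.coeff_sub, Finsupp.sub_apply, coeff_bar, hp, hp, inv_inv]
  rcases lt_trichotomy h h⁻¹ with h1 | h1 | h1
  · rw [if_pos h1, if_neg (asymm h1), sub_zero]
  · rw [if_neg (by rw [← h1]; exact lt_irrefl _), if_neg (by rw [← h1]; exact lt_irrefl _),
      sub_zero]
    have h2 : h = 1 := tf h (by nth_rewrite 2 [h1]; exact mul_inv_cancel h)
    have h3 := hc 1
    rw [inv_one] at h3
    rw [h2]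
    omega
  · rw [if_neg (asymm h1), if_pos h1, hc, zero_sub, neg_neg]

/-- The same for matrices. -/
theorem skew_matrix (tf : ∀ g : G, g * g = 1 → g = 1) {m : ℕ}
    (D : Matrix (Fin m) (Fin m) (MonoidAlgebra ℤ G)) (hD : ∀ i j, D i j + bar (D j i) = 0) :
    ∃ P : Matrix (Fin m) (Fin m) (MonoidAlgebra ℤ G), ∀ i j, D i j = P i j - bar (P j i) := by
  choose p hp using fun i => skew tf (D i i) (hD i i)
  refine ⟨fun i j => if i < j then D i j else if i = j then p i else 0, fun i j => ?_⟩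
  rcases lt_trichotomy i j with h | h | h
  · simp only [if_pos h, if_neg (asymm h), if_neg h.ne']
    rw [bar_zero, sub_zero]
  · subst h
    simp only [lt_irrefl, if_false, if_true]
    exact hp i
  · simp only [if_pos h, if_neg (asymm h), if_neg h.ne']
    have h1 := hD i j
    rw [zero_sub]
    exact eq_neg_of_add_eq_zero_left h1

theorem herm_symmetrization (Q A : Matrix (Fin n) (Fin n) (MonoidAlgebra ℤ G))
    (hQ : ∀ i j, A i j = Q i j + bar (Q j i)) (x y : Fin n → MonoidAlgebra ℤ G) :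
    herm A x y = herm Q x y + bar (herm Q y x) := by
  have h1 : bar (herm Q y x) = herm (fun i j => bar (Q j i)) x y := by
    unfold herm
    rw [bar_sum]
    simp_rw [bar_sum]
    rw [Finset.sum_comm]
    refine Finset.sum_congr rfl fun i _ => Finset.sum_congr rfl fun j _ => ?_
    rw [bar_mul, bar_mul, bar_bar, mul_assoc]
  rw [h1]
  unfold herm
  rw [← Finset.sum_add_distrib]
  refine Finset.sum_congr rfl fun i _ => ?_
  rw [← Finset.sum_add_distrib]
  refine Finset.sum_congr rfl fun j _ => ?_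
  rw [hQ, mul_add, add_mul]

/-- The augmentation. -/
noncomputable def aug : MonoidAlgebra ℤ G →ₐ[ℤ] ℤ := MonoidAlgebra.lift ℤ ℤ G 1

theorem rank_eq {m : ℕ}
    (f : (Fin m → MonoidAlgebra ℤ G) ≃ₗ[MonoidAlgebra ℤ G] (Fin n → MonoidAlgebra ℤ G)) :
    m = n := by
  classical
  have key : ∀ {a b : ℕ}
      (f : (Fin a → MonoidAlgebra ℤ G) ≃ₗ[MonoidAlgebra ℤ G] (Fin b → MonoidAlgebra ℤ G)),
      (Matrix.of fun i j => (aug (f (Pi.single i 1) j) : ℤ)) *
        (Matrix.of fun i j => (aug (f.symm (Pi.single i 1) j) : ℤ)) =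
          (1 : Matrix (Fin a) (Fin a) ℤ) := by
    intro a b f
    ext i k
    rw [Matrix.mul_apply]
    simp only [Matrix.of_apply]
    have h1 : f.symm (f (Pi.single i 1)) = Pi.single i 1 := f.symm_apply_apply _
    have h2 : f (Pi.single i 1) =
        ∑ j, (f (Pi.single i 1) j) • (Pi.single j (1 : MonoidAlgebra ℤ G) : Fin b → _) := by
      exact pi_eq_sum_univ' _
    rw [h2, map_sum] at h1
    have h3 := congrArg (fun v : Fin a → MonoidAlgebra ℤ G => aug (v k)) h1
    simp only [map_smul, Finset.sum_apply, Pi.smul_apply, smul_eq_mul, map_sum, map_mul] at h3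
    rw [h3, Matrix.one_apply, Pi.single_apply]
    by_cases h : i = k
    · subst h; simp
    · rw [if_neg (fun h' => h h'.symm), if_neg h, map_zero]
  have h1 := key f
  have h2 := key f.symm
  rw [LinearEquiv.symm_symm] at h2
  have h3 := Matrix.square_of_invertible _ _ h1 h2
  simpa using h3

/-- The adjoint matrix. -/
noncomputable def adj {m n : ℕ} (S : Matrix (Fin m) (Fin n) (MonoidAlgebra ℤ G)) :
    Matrix (Fin n) (Fin m) (MonoidAlgebra ℤ G) := fun i j => bar (S j i)

/-- The matrix over `ℤG` given by an integer matrix. -/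
noncomputable def ext {m n : ℕ} (M : Matrix (Fin m) (Fin n) ℤ) :
    Matrix (Fin m) (Fin n) (MonoidAlgebra ℤ G) := fun i j => MonoidAlgebra.single 1 (M i j)

/-- The augmentation of a matrix. -/
noncomputable def augm {m n : ℕ} (S : Matrix (Fin m) (Fin n) (MonoidAlgebra ℤ G)) :
    Matrix (Fin m) (Fin n) ℤ := fun i j => aug (S i j)

theorem aug_single (g : G) (r : ℤ) : aug (MonoidAlgebra.single g r) = r := by
  simp [aug]

theorem aug_bar (x : MonoidAlgebra ℤ G) : aug (bar x) = aug x := by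
  induction x using MonoidAlgebra.induction_linear with
  | zero => rw [bar_zero]
  | add x y h1 h2 => rw [bar_add, map_add, map_add, h1, h2]
  | single g r => rw [bar_single, aug_single, aug_single]

section mat

variable {m k l : ℕ}

theorem adj_adj (S : Matrix (Fin m) (Fin k) (MonoidAlgebra ℤ G)) : adj (adj S) = S := by
  refine Matrix.ext fun i j => ?_
  exact bar_bar _

theorem adj_mul (S : Matrix (Fin m) (Fin k) (MonoidAlgebra ℤ G))
    (T : Matrix (Fin k) (Fin l) (MonoidAlgebra ℤ G)) : adj (S * T) = adj T * adj S := by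
  refine Matrix.ext fun i j => ?_
  show bar ((S * T) j i) = _
  rw [Matrix.mul_apply, Matrix.mul_apply, bar_sum]
  exact Finset.sum_congr rfl fun _ _ => bar_mul _ _

theorem adj_add (S T : Matrix (Fin m) (Fin k) (MonoidAlgebra ℤ G)) :
    adj (S + T) = adj S + adj T := by
  refine Matrix.ext fun i j => ?_
  exact bar_add _ _

theorem adj_sub (S T : Matrix (Fin m) (Fin k) (MonoidAlgebra ℤ G)) :
    adj (S - T) = adj S - adj T := by
  refine Matrix.ext fun i j => ?_
  exact bar_sub _ _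

theorem augm_mul (S : Matrix (Fin m) (Fin k) (MonoidAlgebra ℤ G))
    (T : Matrix (Fin k) (Fin l) (MonoidAlgebra ℤ G)) : augm (S * T) = augm S * augm T := by
  ext i j
  show aug ((S * T) i j) = _
  rw [Matrix.mul_apply, Matrix.mul_apply, map_sum]
  exact Finset.sum_congr rfl fun _ _ => map_mul _ _ _

theorem augm_add (S T : Matrix (Fin m) (Fin k) (MonoidAlgebra ℤ G)) :
    augm (S + T) = augm S + augm T := by
  ext i j
  exact map_add _ _ _

theorem augm_adj (S : Matrix (Fin m) (Fin k) (MonoidAlgebra ℤ G)) :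
    augm (adj S) = (augm S).transpose := by
  ext i j
  exact aug_bar _

theorem augm_one : augm (1 : Matrix (Fin m) (Fin m) (MonoidAlgebra ℤ G)) = 1 := by
  ext i j
  show aug ((1 : Matrix (Fin m) (Fin m) (MonoidAlgebra ℤ G)) i j) = _
  rw [Matrix.one_apply, Matrix.one_apply]
  split_ifs with h
  · rw [map_one]
  · rw [map_zero]

theorem augm_ext (M : Matrix (Fin m) (Fin k) ℤ) : augm (ext M : Matrix _ _ (MonoidAlgebra ℤ G)) = M := by
  ext i j
  exact aug_single _ _

theorem single_sum' {ι : Type*} (s : Finset ι) (f : ι → ℤ) :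
    (MonoidAlgebra.single (1 : G) (∑ x ∈ s, f x) : MonoidAlgebra ℤ G) =
      ∑ x ∈ s, MonoidAlgebra.single 1 (f x) := by
  classical
  induction s using Finset.induction_on with
  | empty => simp
  | insert i s hi ih => rw [Finset.sum_insert hi, Finset.sum_insert hi, MonoidAlgebra.single_add, ih]

theorem ext_mul (M : Matrix (Fin m) (Fin k) ℤ) (N : Matrix (Fin k) (Fin l) ℤ) :
    (ext (M * N) : Matrix (Fin m) (Fin l) (MonoidAlgebra ℤ G)) =
      (ext M : Matrix (Fin m) (Fin k) (MonoidAlgebra ℤ G)) *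
        (ext N : Matrix (Fin k) (Fin l) (MonoidAlgebra ℤ G)) := by
  refine Matrix.ext fun i j => ?_
  have h1 : ((ext M : Matrix (Fin m) (Fin k) (MonoidAlgebra ℤ G)) *
        (ext N : Matrix (Fin k) (Fin l) (MonoidAlgebra ℤ G))) i j =
      ∑ x, (ext M : Matrix (Fin m) (Fin k) (MonoidAlgebra ℤ G)) i x * ext N x j := Matrix.mul_apply
  rw [h1]
  have h2 : (ext (M * N) : Matrix (Fin m) (Fin l) (MonoidAlgebra ℤ G)) i j =
      MonoidAlgebra.single 1 (∑ x, M i x * N x j) := by
    show MonoidAlgebra.single 1 ((M * N) i j) = _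
    rw [Matrix.mul_apply]
  rw [h2, single_sum']
  refine Finset.sum_congr rfl fun x _ => ?_
  show _ = MonoidAlgebra.single 1 (M i x) * MonoidAlgebra.single 1 (N x j)
  rw [MonoidAlgebra.single_mul_single, mul_one]

theorem ext_add (M N : Matrix (Fin m) (Fin k) ℤ) :
    (ext (M + N) : Matrix _ _ (MonoidAlgebra ℤ G)) = ext M + ext N := by
  refine Matrix.ext fun i j => ?_
  exact MonoidAlgebra.single_add _ _ _

theorem ext_one : (ext (1 : Matrix (Fin m) (Fin m) ℤ) : Matrix _ _ (MonoidAlgebra ℤ G)) = 1 := by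
  refine Matrix.ext fun i j => ?_
  show MonoidAlgebra.single 1 ((1 : Matrix (Fin m) (Fin m) ℤ) i j) = _
  rw [Matrix.one_apply, Matrix.one_apply]
  split_ifs with h
  · rfl
  · exact MonoidAlgebra.single_zero _

theorem adj_ext (M : Matrix (Fin m) (Fin k) ℤ) :
    adj (ext M : Matrix _ _ (MonoidAlgebra ℤ G)) = ext M.transpose := by
  refine Matrix.ext fun i j => ?_
  show bar (MonoidAlgebra.single 1 (M j i)) = _
  rw [bar_single, inv_one]
  rfl

end mat

theorem mul_adj_apply {m : ℕ} (S : Matrix (Fin m) (Fin n) (MonoidAlgebra ℤ G))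
    (A : Matrix (Fin n) (Fin n) (MonoidAlgebra ℤ G)) (i j : Fin m) :
    (S * A * adj S) i j = herm A (S i) (S j) := by
  rw [Matrix.mul_apply]
  unfold herm
  rw [Finset.sum_comm]
  refine Finset.sum_congr rfl fun l _ => ?_
  rw [Matrix.mul_apply, Finset.sum_mul]
  rfl

/-- The matrix form of an isomorphism. -/
theorem exists_unit
    (f : (Fin n → MonoidAlgebra ℤ G) ≃ₗ[MonoidAlgebra ℤ G] (Fin n → MonoidAlgebra ℤ G)) :
    ∃ S : (Matrix (Fin n) (Fin n) (MonoidAlgebra ℤ G))ˣ, ∀ i, S.1 i = f (Pi.single i 1) := by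
  classical
  have key : ∀ f : (Fin n → MonoidAlgebra ℤ G) ≃ₗ[MonoidAlgebra ℤ G] (Fin n → MonoidAlgebra ℤ G),
      (Matrix.of fun i j => (f (Pi.single i 1) j : MonoidAlgebra ℤ G)) *
        (Matrix.of fun i j => (f.symm (Pi.single i 1) j : MonoidAlgebra ℤ G)) = 1 := by
    intro f
    refine Matrix.ext fun i k => ?_
    rw [Matrix.mul_apply]
    simp only [Matrix.of_apply]
    have h1 : f.symm (f (Pi.single i 1)) = Pi.single i 1 := f.symm_apply_apply _
    have h2 : f (Pi.single i 1) =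
        ∑ j, (f (Pi.single i 1) j) • (Pi.single j (1 : MonoidAlgebra ℤ G) : Fin n → _) := by
      exact pi_eq_sum_univ' _
    rw [h2, map_sum] at h1
    have h3 := congrFun h1 k
    simp only [map_smul, Finset.sum_apply, Pi.smul_apply, smul_eq_mul] at h3
    rw [h3, Matrix.one_apply, Pi.single_apply]
    by_cases h : i = k
    · subst h; simp
    · rw [if_neg (fun h' => h h'.symm), if_neg h]
  refine ⟨⟨_, _, key f, ?_⟩, fun i => rfl⟩
  have h2 := key f.symm
  rw [LinearEquiv.symm_symm] at h2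
  exact h2

/-- From an integral form to the augmentation. -/
theorem to_aug (A : Matrix (Fin n) (Fin n) (MonoidAlgebra ℤ G))
    (S : (Matrix (Fin n) (Fin n) (MonoidAlgebra ℤ G))ˣ) (A₀ : Matrix (Fin n) (Fin n) ℤ)
    (h : S.1 * A * adj S.1 = ext A₀) :
    ∃ T : (Matrix (Fin n) (Fin n) (MonoidAlgebra ℤ G))ˣ, T.1 * A * adj T.1 = ext (augm A) := by
  have h1 : augm S.1 * augm A * (augm S.1).transpose = A₀ := by
    rw [← augm_adj, ← augm_mul, ← augm_mul, h, augm_ext]
  have hMN : augm S.1 * augm S⁻¹.1 = 1 := by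
    rw [← augm_mul, ← Units.val_mul, mul_inv_cancel, Units.val_one, augm_one]
  have hNM : augm S⁻¹.1 * augm S.1 = 1 := by
    rw [← augm_mul, ← Units.val_mul, inv_mul_cancel, Units.val_one, augm_one]
  let U : (Matrix (Fin n) (Fin n) (MonoidAlgebra ℤ G))ˣ :=
    ⟨ext (augm S⁻¹.1), ext (augm S.1), by rw [← ext_mul, hNM, ext_one],
      by rw [← ext_mul, hMN, ext_one]⟩
  refine ⟨U * S, ?_⟩
  show ext (augm S⁻¹.1) * S.1 * A * adj (ext (augm S⁻¹.1) * S.1) = _
  rw [adj_mul, adj_ext]
  have h2 : ext (augm S⁻¹.1) * S.1 * A * (adj S.1 * ext (augm S⁻¹.1).transpose) =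
      ext (augm S⁻¹.1) * (S.1 * A * adj S.1) * ext (augm S⁻¹.1).transpose := by
    simp only [Matrix.mul_assoc]
  rw [h2, h, ← ext_mul, ← ext_mul, ← h1]
  congr 1
  have h3 : augm S⁻¹.1 * (augm S.1 * augm A * (augm S.1).transpose) * (augm S⁻¹.1).transpose =
      (augm S⁻¹.1 * augm S.1) * augm A * (augm S⁻¹.1 * augm S.1).transpose := by
    rw [Matrix.transpose_mul]
    simp only [Matrix.mul_assoc]
  rw [h3, hNM, Matrix.transpose_one, Matrix.one_mul, Matrix.mul_one]

/-- The main theorem in matrix form. -/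
theorem main_matrix
    (tf : ∀ (g : G) (k : ℕ), 1 ≤ k → g ^ k = 1 → g = 1)
    (A : Matrix (Fin n) (Fin n) (MonoidAlgebra ℤ G)) (hA : adj A = A)
    (hu : IsUnit A) (hpos : ∀ x : Fin n → MonoidAlgebra ℤ G, x ≠ 0 → 0 < (herm A x x).coeff 1)
    (hgen : AddSubgroup.closure {x : Fin n → MonoidAlgebra ℤ G | (herm A x x).coeff 1 ≤ 2} = ⊤) :
    ∃ S : (Matrix (Fin n) (Fin n) (MonoidAlgebra ℤ G))ˣ, S.1 * A * adj S.1 = ext (augm A) := by
  have hA' : ∀ i j, bar (A i j) = A j i := fun i j => congrFun (congrFun hA j) i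
  obtain ⟨m, f, A₀, h⟩ := main t_SPAN t_BASIS tf A hA' hu hpos hgen
  obtain rfl : m = n := rank_eq f
  obtain ⟨S, hS⟩ := exists_unit f
  refine to_aug A S A₀ ?_
  refine Matrix.ext fun i j => ?_
  rw [mul_adj_apply, hS, hS, h]
  rfl

/-- Quadratic forms. -/
theorem main_quad
    (tf : ∀ (g : G) (k : ℕ), 1 ≤ k → g ^ k = 1 → g = 1)
    (Q : Matrix (Fin n) (Fin n) (MonoidAlgebra ℤ G))
    (S : (Matrix (Fin n) (Fin n) (MonoidAlgebra ℤ G))ˣ)
    (h : S.1 * (Q + adj Q) * adj S.1 = ext (augm (Q + adj Q))) :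
    ∃ P : Matrix (Fin n) (Fin n) (MonoidAlgebra ℤ G),
      S.1 * Q * adj S.1 = ext (augm Q) + (P - adj P) := by
  obtain ⟨P, hP⟩ := skew_matrix (fun g hg => tf g 2 (by norm_num) (by rw [sq]; exact hg))
    (S.1 * Q * adj S.1 - ext (augm Q)) (fun i j => by
      have h1 : (S.1 * Q * adj S.1 - ext (augm Q)) + adj (S.1 * Q * adj S.1 - ext (augm Q)) = 0 := by
        rw [adj_sub, adj_mul, adj_mul, adj_adj, adj_ext, ← Matrix.mul_assoc]
        have h2 : S.1 * Q * adj S.1 + S.1 * adj Q * adj S.1 = ext (augm Q) + ext (augm Q).transpose := by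
          rw [← Matrix.add_mul, ← Matrix.mul_add, h, augm_add, augm_adj, ext_add]
        have h3 : S.1 * Q * adj S.1 - ext (augm Q) +
            (S.1 * adj Q * adj S.1 - ext (augm Q).transpose) =
            (S.1 * Q * adj S.1 + S.1 * adj Q * adj S.1) -
              (ext (augm Q) + ext (augm Q).transpose) := by abel
        rw [h3, h2, sub_self]
      exact congrFun (congrFun h1 i) j)
  refine ⟨P, ?_⟩
  refine Matrix.ext fun i j => ?_
  have h1 := hP i j
  rw [Matrix.sub_apply] at h1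
  rw [Matrix.add_apply, Matrix.sub_apply]
  show _ = _ + (P i j - bar (P j i))
  rw [← h1]
  abel

end Pool.Agent.J6H6.DF
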